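import Pool.Agent.Y231.MF.Stm

/-!
# Project MF, job BASE (helper908): the pencil of n lines
-/

set_option autoImplicit false

namespace Pool.Agent.Y231.MF

open Finset Classical

/-- the pencil -/
noncomputable def pen (n : ℕ) (i : Fin n) : Fin 2 → ℝ := ![1, ((i : ℕ) : ℝ)]

theorem pen_dot (n : ℕ) (i : Fin n) (x : Fin 2 → ℝ) :
    dotProduct (pen n i) x = x 0 + ((i : ℕ) : ℝ) * x 1 := by
  simp [pen, dotProduct, Fin.sum_univ_two]

theorem pen_ne (n : ℕ) (i : Fin n) : pen n i ≠ 0 := by
  intro h
  have := congrFun h 0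
  simp [pen] at this

theorem pen_cast_ne {n : ℕ} {i j : Fin n} (h : i ≠ j) : ((i : ℕ) : ℝ) ≠ ((j : ℕ) : ℝ) := by
  intro h1
  apply h
  apply Fin.ext
  exact_mod_cast h1

theorem pen_good (n : ℕ) (hn : 2 ≤ n) : Good (pen n) := by
  refine ⟨pen_ne n, ?_, ?_⟩
  · intro i j hij c h
    have h0 := congrFun h 0
    have h1 := congrFun h 1
    simp [pen] at h0 h1
    rw [← h0, one_mul] at h1
    exact hij (Fin.ext (by exact_mod_cast h1))
  · intro x hx
    have h0 := hx ⟨0, by omega⟩
    have h1 := hx ⟨1, by omega⟩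
    rw [pen_dot] at h0 h1
    simp at h0 h1
    funext k
    fin_cases k
    · simpa using h0
    · simp
      linarith

theorem rk_two {n : ℕ} {S : Set (Fin n)} {i j : Fin n} (hi : i ∈ S) (hj : j ∈ S) (h : i ≠ j) :
    Module.finrank ℝ (Submodule.span ℝ (pen n '' S)) = 2 := by
  have htop : Submodule.span ℝ (pen n '' S) = ⊤ := by
    rw [eq_top_iff]
    intro v _
    have hne : ((j : ℕ) : ℝ) - ((i : ℕ) : ℝ) ≠ 0 := sub_ne_zero.2 (pen_cast_ne h).symm
    obtain ⟨b, hb⟩ : ∃ b : ℝ, b = (v 1 - ((i : ℕ) : ℝ) * v 0) / (((j : ℕ) : ℝ) - ((i : ℕ) : ℝ)) :=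
      ⟨_, rfl⟩
    have hb' : b * (((j : ℕ) : ℝ) - ((i : ℕ) : ℝ)) = v 1 - ((i : ℕ) : ℝ) * v 0 := by
      rw [hb, div_mul_cancel₀ _ hne]
    have e : v = (v 0 - b) • pen n i + b • pen n j := by
      funext k
      fin_cases k
      · simp [pen]
      · simp [pen]
        linarith
    rw [e]
    exact Submodule.add_mem _
      (Submodule.smul_mem _ _ (Submodule.subset_span (Set.mem_image_of_mem _ hi)))
      (Submodule.smul_mem _ _ (Submodule.subset_span (Set.mem_image_of_mem _ hj)))
  rw [htop, finrank_top]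
  simp

theorem rk_one {n : ℕ} {S : Set (Fin n)} {i : Fin n} (hi : S = {i}) :
    Module.finrank ℝ (Submodule.span ℝ (pen n '' S)) = 1 := by
  rw [hi, Set.image_singleton]
  exact finrank_span_singleton (pen_ne n i)

theorem rk_zero {n : ℕ} {S : Set (Fin n)} (hi : S = ∅) :
    Module.finrank ℝ (Submodule.span ℝ (pen n '' S)) = 0 := by
  rw [hi, Set.image_empty, Submodule.span_empty, finrank_bot]

/-- sign of a boolean -/
def sg (b : Bool) : ℝ := if b then 1 else -1

theorem sg_ne (b : Bool) : sg b ≠ 0 := by cases b <;> simp [sg]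

/-- covectors with one zero -/
noncomputable def f1 (n : ℕ) (z : Fin n × Bool) : Fin n → SignType :=
  fun j => SignType.sign (sg z.2 * (((j : ℕ) : ℝ) - ((z.1 : ℕ) : ℝ)))

/-- covectors without zeros -/
noncomputable def f0 (n : ℕ) (z : Fin n × Bool) : Fin n → SignType :=
  fun j => SignType.sign (sg z.2 * (((z.1 : ℕ) : ℝ) + 1 / 2 - ((j : ℕ) : ℝ)))

theorem f1_zero {n : ℕ} (z : Fin n × Bool) (j : Fin n) : f1 n z j = 0 ↔ j = z.1 := by
  unfold f1
  rw [sign_eq_zero_iff]
  constructor
  · intro h
    rcases mul_eq_zero.1 h with h1 | h1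
    · exact absurd h1 (sg_ne _)
    · by_contra h2
      exact pen_cast_ne h2 (sub_eq_zero.1 h1)
  · intro h
    rw [h]
    simp

theorem half_ne (a b : ℕ) : (a : ℝ) + 1 / 2 - (b : ℝ) ≠ 0 := by
  intro h
  have h1 : (2 * a + 1 : ℝ) = 2 * b := by linarith
  have h2 : 2 * a + 1 = 2 * b := by exact_mod_cast h1
  omega

theorem f0_ne {n : ℕ} (z : Fin n × Bool) (j : Fin n) : f0 n z j ≠ 0 := by
  unfold f0
  rw [Ne, sign_eq_zero_iff]
  exact mul_ne_zero (sg_ne _) (half_ne _ _)

theorem f1_inj (n : ℕ) (hn : 2 ≤ n) : Function.Injective (f1 n) := by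
  rintro ⟨i, b⟩ ⟨i', b'⟩ h
  have h1 : i = i' := by
    have := (f1_zero (i, b) i).2 rfl
    rw [h] at this
    exact (f1_zero (i', b') i).1 this
  subst h1
  obtain ⟨j, hj⟩ : ∃ j : Fin n, j ≠ i := by
    by_cases h0 : (i : ℕ) = 0
    · refine ⟨⟨1, by omega⟩, ?_⟩
      intro h
      have := congrArg Fin.val h
      simp at this
      omega
    · refine ⟨⟨0, by omega⟩, ?_⟩
      intro h
      have := congrArg Fin.val h
      simp at this
      omega
  have h2 := congrFun h j
  unfold f1 at h2
  simp only [sign_mul] at h2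
  have h3 : SignType.sign (((j : ℕ) : ℝ) - ((i : ℕ) : ℝ)) ≠ 0 := by
    rw [Ne, sign_eq_zero_iff]
    exact sub_ne_zero.2 (pen_cast_ne hj)
  have h4 := mul_right_cancel₀ h3 h2
  have h5 : b = b' := by
    cases b <;> cases b' <;> simp [sg] at h4 ⊢
  rw [h5]

theorem f0_val {n : ℕ} (i j : Fin n) (b : Bool) :
    f0 n (i, b) j = if (j : ℕ) ≤ (i : ℕ) then SignType.sign (sg b) else - SignType.sign (sg b) := by
  unfold f0
  rw [sign_mul]
  by_cases h : (j : ℕ) ≤ (i : ℕ)
  · rw [if_pos h]
    have h1 : (0 : ℝ) < ((i : ℕ) : ℝ) + 1 / 2 - ((j : ℕ) : ℝ) := by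
      have : ((j : ℕ) : ℝ) ≤ ((i : ℕ) : ℝ) := by exact_mod_cast h
      linarith
    simp only [sign_pos h1, mul_one]
  · rw [if_neg h]
    have h1 : ((i : ℕ) : ℝ) + 1 / 2 - ((j : ℕ) : ℝ) < 0 := by
      have : ((i : ℕ) : ℝ) + 1 ≤ ((j : ℕ) : ℝ) := by
        have : (i : ℕ) + 1 ≤ j := by omega
        exact_mod_cast this
      linarith
    simp only [sign_neg h1, mul_neg, mul_one]

theorem sgn_ne_neg (b : Bool) : SignType.sign (sg b) ≠ - SignType.sign (sg b) := by
  cases b <;> simp [sg]

theorem f0_inj (n : ℕ) : Function.Injective (f0 n) := by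
  rintro ⟨i, b⟩ ⟨i', b'⟩ h
  have hn : 0 < n := lt_of_le_of_lt (Nat.zero_le _) i.2
  have hb : b = b' := by
    have h2 := congrFun h ⟨0, hn⟩
    rw [f0_val, f0_val, if_pos (Nat.zero_le _), if_pos (Nat.zero_le _)] at h2
    cases b <;> cases b' <;> simp [sg] at h2 ⊢
  subst hb
  have hi : i = i' := by
    rcases lt_trichotomy (i : ℕ) (i' : ℕ) with h1 | h1 | h1
    · have h2 := congrFun h i'
      rw [f0_val, f0_val, if_neg (by omega), if_pos le_rfl] at h2
      exact absurd h2.symm (sgn_ne_neg b)
    · exact Fin.ext h1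
    · have h2 := congrFun h i
      rw [f0_val, f0_val, if_pos le_rfl, if_neg (by omega)] at h2
      exact absurd h2 (sgn_ne_neg b)
  rw [hi]

theorem card_rng {n : ℕ} (f : Fin n × Bool → (Fin n → SignType)) (hf : Function.Injective f) :
    Set.ncard (Set.range f) = 2 * n := by
  rw [← Set.image_univ, Set.ncard_image_of_injective _ hf, Set.ncard_univ, Nat.card_prod]
  simp
  ring

theorem cc_two (n : ℕ) (hn : 2 ≤ n) : cc (pen n) 2 = 1 := by
  unfold cc
  have : {σ : Fin n → SignType |
    (∃ x : Fin 2 → ℝ, ∀ i, SignType.sign (dotProduct (pen n i) x) = σ i) ∧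
      Module.finrank ℝ (Submodule.span ℝ (pen n '' {i | σ i = 0})) = 2} = {0} := by
    ext σ
    rw [Set.mem_singleton_iff]
    constructor
    · rintro ⟨⟨x, hx⟩, hr⟩
      by_cases hex : ∃ i j : Fin n, i ≠ j ∧ σ i = 0 ∧ σ j = 0
      · obtain ⟨i, j, hij, hi, hj⟩ := hex
        have e1 := hx i
        have e2 := hx j
        rw [hi, sign_eq_zero_iff, pen_dot] at e1
        rw [hj, sign_eq_zero_iff, pen_dot] at e2
        have e3 : (((i : ℕ) : ℝ) - ((j : ℕ) : ℝ)) * x 1 = 0 := by linarith
        rcases mul_eq_zero.1 e3 with e4 | e4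
        · exact absurd (sub_eq_zero.1 e4) (pen_cast_ne hij)
        · rw [e4, mul_zero, add_zero] at e1
          funext k
          rw [← hx k, pen_dot, e1, e4]
          simp
      · push Not at hex
        rcases Set.eq_empty_or_nonempty {i | σ i = 0} with h | ⟨i, hi⟩
        · rw [rk_zero h] at hr
          omega
        · have h : {i | σ i = 0} = {i} := by
            ext j
            rw [Set.mem_singleton_iff]
            constructor
            · intro hj
              by_contra h2
              exact hex j i h2 hj hi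
            · rintro rfl
              exact hi
          rw [rk_one h] at hr
          omega
    · rintro rfl
      refine ⟨⟨0, fun i => by simp⟩, ?_⟩
      have h1 : (⟨0, by omega⟩ : Fin n) ≠ ⟨1, by omega⟩ := by
        intro h
        have := congrArg Fin.val h
        simp at this
      exact rk_two (i := ⟨0, by omega⟩) (j := ⟨1, by omega⟩) (by simp) (by simp) h1
  rw [this, Set.ncard_singleton]

theorem cc_one (n : ℕ) (hn : 2 ≤ n) : cc (pen n) 1 = 2 * n := by
  unfold cc
  have : {σ : Fin n → SignType |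
    (∃ x : Fin 2 → ℝ, ∀ i, SignType.sign (dotProduct (pen n i) x) = σ i) ∧
      Module.finrank ℝ (Submodule.span ℝ (pen n '' {i | σ i = 0})) = 1} = Set.range (f1 n) := by
    ext σ
    constructor
    · rintro ⟨⟨x, hx⟩, hr⟩
      rcases Set.eq_empty_or_nonempty {i | σ i = 0} with h | ⟨i, hi⟩
      · rw [rk_zero h] at hr
        omega
      have e1 := hx i
      have hi' : σ i = 0 := hi
      rw [hi', sign_eq_zero_iff, pen_dot] at e1
      have hx1 : x 1 ≠ 0 := by
        intro h1
        rw [h1, mul_zero, add_zero] at e1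
        have h2 : ∀ k, σ k = 0 := by
          intro k
          rw [← hx k, pen_dot, e1, h1]
          simp
        have h3 : (⟨0, by omega⟩ : Fin n) ≠ ⟨1, by omega⟩ := by
          intro h
          have := congrArg Fin.val h
          simp at this
        have := rk_two (S := {i | σ i = 0}) (i := ⟨0, by omega⟩) (j := ⟨1, by omega⟩)
          (h2 _) (h2 _) h3
        omega
      refine ⟨(i, decide (0 < x 1)), ?_⟩
      funext j
      rw [← hx j, pen_dot]
      have e2 : x 0 + ((j : ℕ) : ℝ) * x 1 = x 1 * (((j : ℕ) : ℝ) - ((i : ℕ) : ℝ)) := by linarith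
      rw [e2, f1, sign_mul, sign_mul]
      congr 1
      rcases lt_or_gt_of_ne hx1 with h1 | h1
      · have : ¬ (0 < x 1) := by linarith
        simp [sg, this, sign_neg h1]
      · simp [sg, h1, sign_pos h1]
    · rintro ⟨⟨i, b⟩, rfl⟩
      refine ⟨⟨![- (sg b * ((i : ℕ) : ℝ)), sg b], ?_⟩, ?_⟩
      · intro j
        rw [pen_dot, f1]
        congr 1
        simp
        ring
      · apply rk_one (i := i)
        ext j
        rw [Set.mem_singleton_iff]
        exact f1_zero (i, b) j
  rw [this]
  exact card_rng _ (f1_inj n hn)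

theorem cc_zero (n : ℕ) (hn : 2 ≤ n) : cc (pen n) 0 = 2 * n := by
  unfold cc
  have : {σ : Fin n → SignType |
    (∃ x : Fin 2 → ℝ, ∀ i, SignType.sign (dotProduct (pen n i) x) = σ i) ∧
      Module.finrank ℝ (Submodule.span ℝ (pen n '' {i | σ i = 0})) = 0} = Set.range (f0 n) := by
    ext σ
    constructor
    · rintro ⟨⟨x, hx⟩, hr⟩
      have hne : ∀ i, σ i ≠ 0 := by
        intro i hi
        have h1 : pen n i ∈ Submodule.span ℝ (pen n '' {i | σ i = 0}) :=
          Submodule.subset_span (Set.mem_image_of_mem _ hi)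
        rw [Submodule.finrank_eq_zero] at hr
        rw [hr, Submodule.mem_bot] at h1
        exact pen_ne n i h1
      obtain ⟨z, hz⟩ : ∃ z : Fin n, z = ⟨0, by omega⟩ := ⟨_, rfl⟩
      have hz0 : ((z : ℕ) : ℝ) = 0 := by rw [hz]; simp
      -- the last index with the sign of the first one
      obtain ⟨c, hc, hmax⟩ := exists_max_image (univ.filter fun j : Fin n => σ j = σ z)
        (fun j => (j : ℕ)) ⟨z, by simp⟩
      have hcz : σ c = σ z := (mem_filter.1 hc).2
      have hzs : ∃ b : Bool, σ z = SignType.sign (sg b) := by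
        have h0 := hne z
        cases h : σ z with
        | zero => exact absurd h h0
        | neg => exact ⟨false, by simp [sg]⟩
        | pos => exact ⟨true, by simp [sg]⟩
      obtain ⟨b, hb⟩ := hzs
      refine ⟨(c, b), ?_⟩
      funext j
      rw [f0_val]
      by_cases hj : (j : ℕ) ≤ (c : ℕ)
      · rw [if_pos hj, ← hb]
        -- same sign by convexity
        have e1 := hx z
        have e2 := hx c
        rw [hcz] at e2
        rw [pen_dot] at e1 e2
        rw [hz0, zero_mul, add_zero] at e1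
        rw [← hx j, pen_dot]
        have hj' : ((j : ℕ) : ℝ) ≤ ((c : ℕ) : ℝ) := by exact_mod_cast hj
        have hj0 : (0 : ℝ) ≤ ((j : ℕ) : ℝ) := Nat.cast_nonneg _
        rcases lt_trichotomy (x 0) 0 with h | h | h
        · have e3 : σ z = -1 := by rw [← e1]; exact sign_neg h
          rw [e3] at e2 ⊢
          rw [sign_eq_neg_one_iff] at e2
          symm
          rw [sign_eq_neg_one_iff]
          rcases le_total 0 (x 1) with h5 | h5
          · nlinarith
          · nlinarith
        · exfalso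
          rw [h, sign_zero] at e1
          exact hne z e1.symm
        · have e3 : σ z = 1 := by rw [← e1]; exact sign_pos h
          rw [e3] at e2 ⊢
          rw [sign_eq_one_iff] at e2
          symm
          rw [sign_eq_one_iff]
          rcases le_total 0 (x 1) with h5 | h5
          · nlinarith
          · nlinarith
      · rw [if_neg hj, ← hb]
        have h1 : σ j ≠ σ z := by
          intro h
          exact hj (hmax j (mem_filter.2 ⟨mem_univ _, h⟩))
        have h2 := hne j
        have h3 := hne z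
        revert h1 h2 h3
        generalize σ j = s
        generalize σ z = t
        revert s t
        decide
    · rintro ⟨⟨i, b⟩, rfl⟩
      refine ⟨⟨![sg b * (((i : ℕ) : ℝ) + 1 / 2), - sg b], ?_⟩, ?_⟩
      · intro j
        rw [pen_dot, f0]
        congr 1
        simp
        ring
      · apply rk_zero
        rw [Set.eq_empty_iff_forall_notMem]
        intro j hj
        exact f0_ne (i, b) j hj
  rw [this]
  exact card_rng _ (f0_inj n)

theorem base_spec : S_base := by
  intro n hn
  exact ⟨pen n, pen_good n hn, cc_zero n hn, cc_one n hn, cc_two n hn⟩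

end Pool.Agent.Y231.MF
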