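import Pool.Agent.Y231.MF.Stm

/-!
# Project MF, job CHO (helper908)
-/

set_option autoImplicit false

namespace Pool.Agent.Y231.MF

open Finset Classical

theorem two_le_btw {L : Type} [SemilatticeSup L] [OrderTop L] [Fintype L] {r : L → ℕ}
    (hG : GLat r) {Z P Λ : L} (hZP : Z ≤ P) (hP : r P = r Z + 1) (hPL : P ≤ Λ)
    (hL : r Λ = r P + 1) : 2 ≤ (btw r Z Λ).card := by
  have h1 : P ∈ btw r Z Λ := by
    unfold btw
    rw [mem_filter]
    exact ⟨mem_univ _, hZP, hP, hPL⟩
  have h2 : ¬ Λ ≤ P := by
    intro h
    have : Λ = P := le_antisymm h hPL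
    rw [this] at hL
    omega
  obtain ⟨Q, hQ1, hQ2, hQ3, hQ4⟩ := hG.atm Z P Λ hZP (hZP.trans hPL) h2
  have h3 : Q ∈ btw r Z Λ := by
    unfold btw
    rw [mem_filter]
    exact ⟨mem_univ _, hQ1, hQ2, hQ3⟩
  have h4 : 1 < (btw r Z Λ).card := by
    rw [one_lt_card]
    refine ⟨P, h1, Q, h3, ?_⟩
    rintro rfl
    exact hQ4 le_rfl
  omega

theorem exists_atom {L : Type} [SemilatticeSup L] [OrderTop L] [Fintype L] {r : L → ℕ}
    (hG : GLat r) {Z : L} (h : r Z < r ⊤) : ∃ P, Z ≤ P ∧ r P = r Z + 1 := by
  have h1 : ¬ (⊤ : L) ≤ Z := by
    intro h2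
    have : Z = ⊤ := le_antisymm le_top h2
    rw [this] at h
    omega
  obtain ⟨P, h2, h3, -, -⟩ := hG.atm Z Z ⊤ le_rfl le_top h1
  exact ⟨P, h2, h3⟩

theorem cho_spec (hh : S_hyp) : S_cho := by
  intro L _ _ _ r hG
  have key : ∀ (s : ℕ) (Z : L) (j : ℕ), r ⊤ - r Z = s → s.choose j ≤ (up r Z j).card := by
    intro s
    induction s with
    | zero =>
      intro Z j hs
      cases j with
      | zero =>
        rw [Nat.choose_zero_right, Nat.succ_le_iff, card_pos]
        refine ⟨Z, ?_⟩
        unfold up
        rw [mem_filter]
        exact ⟨mem_univ _, le_rfl, rfl⟩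
      | succ j => simp
    | succ s ih =>
      intro Z j hs
      cases j with
      | zero =>
        rw [Nat.choose_zero_right, Nat.succ_le_iff, card_pos]
        refine ⟨Z, ?_⟩
        unfold up
        rw [mem_filter]
        exact ⟨mem_univ _, le_rfl, rfl⟩
      | succ j =>
        obtain ⟨P, hZP, hP⟩ := exists_atom hG (Z := Z) (by omega)
        have hs' : r ⊤ - r P = s := by omega
        have i1 := ih P j hs'
        have i2 := ih P (j + 1) hs'
        rw [Nat.choose_succ_succ']
        have hsplit : (up r P j).card + (up r P (j + 1)).card ≤ (up r Z (j + 1)).card := by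
          have h1 : up r P j ⊆ (up r Z (j + 1)).filter (fun X => P ≤ X) := by
            intro X hX
            unfold up at hX ⊢
            rw [mem_filter] at hX
            rw [mem_filter, mem_filter]
            exact ⟨⟨mem_univ _, hZP.trans hX.2.1, by rw [hX.2.2, hP]; ring⟩, hX.2.1⟩
          have hne : ∀ Y ∈ up r P (j + 1), (hyp r Z P Y).Nonempty := by
            intro Y hY
            unfold up at hY
            rw [mem_filter] at hY
            have h2 := hh L r hG Z P Y hZP hP hY.2.1
            have h3 : (0 : ℚ) ≤ ∑ Λ ∈ btw r P Y, (((btw r Z Λ).card : ℚ) - 2) := by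
              apply sum_nonneg
              intro Λ hΛ
              unfold btw at hΛ
              rw [mem_filter] at hΛ
              have h4 := two_le_btw hG hZP hP hΛ.2.1 hΛ.2.2.1
              have h5 : (2 : ℚ) ≤ (btw r Z Λ).card := by exact_mod_cast h4
              linarith
            rw [← card_pos]
            have h6 : (0 : ℚ) < (hyp r Z P Y).card := by linarith
            exact_mod_cast h6
          choose! f hf using hne
          have hfY : ∀ Y ∈ up r P (j + 1), f Y ⊔ P = Y := by
            intro Y hY
            have h2 := hf Y hY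
            unfold hyp at h2
            rw [mem_filter] at h2
            obtain ⟨-, h3, h4, h5, h6⟩ := h2
            unfold up at hY
            rw [mem_filter] at hY
            have h7 := hG.semi Z (f Y) P h3 hZP hP h6
            have h8 : f Y ⊔ P ≤ Y := sup_le h4 hY.2.1
            by_contra h9
            have h10 := hG.mono (lt_of_le_of_ne h8 h9)
            omega
          have h2 : (up r P (j + 1)).card ≤
              ((up r Z (j + 1)).filter (fun X => ¬ P ≤ X)).card := by
            apply card_le_card_of_injOn f
            · intro Y hY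
              have h2 := hf Y hY
              unfold hyp at h2
              rw [mem_filter] at h2
              obtain ⟨-, h3, h4, h5, h6⟩ := h2
              have hY' : Y ∈ up r P (j + 1) := hY
              unfold up at hY'
              rw [mem_filter] at hY'
              rw [mem_coe, mem_filter]
              refine ⟨?_, h6⟩
              unfold up
              rw [mem_filter]
              exact ⟨mem_univ _, h3, by omega⟩
            · intro Y hY Y' hY' h
              rw [← hfY Y hY, ← hfY Y' hY', h]
          have h3 := card_filter_add_card_filter_not (s := up r Z (j + 1)) (fun X => P ≤ X)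
          have h4 := card_le_card h1
          omega
        omega
  intro Z j
  exact key _ Z j rfl

end Pool.Agent.Y231.MF
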