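import Pool.Agent.Y467.MF.Bas

/-!
# Project MF: counting incidences from connectivity (helper467)
-/

set_option autoImplicit false

namespace Pool.Agent.Y231.MF

open Finset Classical Pool.Agent.Y467.MF

theorem col_spec (hh : S_hyp) (hc : S_con) : S_col := by
  intro L _ _ _ r h Z P Y hZP hP hPY
  have hhyp := hh L r h Z P Y hZP hP hPY
  have hcon := hc L r h Z P Y hZP hP hPY
  -- sums of nonnegative terms
  have hsum : (0 : ℚ) ≤ ∑ Λ ∈ btw r P Y, (((btw r Z Λ).card : ℚ) - 2) := by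
    apply Finset.sum_nonneg
    intro Λ hΛ
    rw [mem_btw] at hΛ
    have h1 := two_le_btw h hZP hP hΛ.1 (by omega)
    have h2 : ((2 : ℕ) : ℚ) ≤ ((btw r Z Λ).card : ℚ) := by exact_mod_cast h1
    push_cast at h2
    linarith
  have hne : (hyp r Z P Y).Nonempty := by
    rw [← Finset.card_pos]
    have : (0 : ℚ) < ((hyp r Z P Y).card : ℚ) := by linarith
    exact_mod_cast this
  obtain ⟨H0, hH0⟩ := hne
  -- the pencils
  set pen : L → Finset L := fun X => (hyp r Z P Y).filter (fun H => X ≤ H) with hpen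
  have hcard : ∀ X ∈ col r Z P Y, (pen X).card + 1 = (btw r X Y).card := by
    intro X hX
    rw [mem_col] at hX
    obtain ⟨hZX, hXY, hrX, hPX⟩ := hX
    have hXP : r (X ⊔ P) = r X + 1 := h.semi Z X P hZX hZP hP hPX
    have hmem : X ⊔ P ∈ btw r X Y := mem_btw.mpr ⟨le_sup_left, hXP, sup_le hXY hPY⟩
    have heq : pen X = (btw r X Y).erase (X ⊔ P) := by
      ext H
      rw [hpen, Finset.mem_filter, mem_hyp, Finset.mem_erase, mem_btw]
      constructor
      · rintro ⟨⟨h1, h2, h3, h4⟩, h5⟩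
        refine ⟨?_, h5, by omega, h2⟩
        rintro rfl
        exact h4 le_sup_right
      · rintro ⟨h1, h2, h3, h4⟩
        refine ⟨⟨hZX.trans h2, h4, by omega, ?_⟩, h2⟩
        intro h5
        exact h1 (eq_of_rank h (sup_le h2 h5) (by omega)).symm
    rw [heq, Finset.card_erase_of_mem hmem]
    have := Finset.card_pos.mpr ⟨_, hmem⟩
    omega
  have htwo : ∀ X ∈ col r Z P Y, 2 ≤ (btw r X Y).card := by
    intro X hX
    rw [mem_col] at hX
    obtain ⟨hZX, hXY, hrX, hPX⟩ := hX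
    exact two_le_btw h (le_sup_left : X ≤ X ⊔ P) (h.semi Z X P hZX hZP hP hPX) (sup_le hXY hPY)
      (by omega)
  have hpne : ∀ X ∈ col r Z P Y, (pen X).Nonempty := by
    intro X hX
    rw [← Finset.card_pos]
    have h1 := hcard X hX
    have h2 := htwo X hX
    omega
  set φ : L → ℕ := fun H => ((up r Z 1).filter (fun Q => Q ≤ H ∧ Q ≤ H0)).card with hφ
  have hmax : ∀ X : L, ∃ M : L, X ∈ col r Z P Y → M ∈ pen X ∧ ∀ H ∈ pen X, φ H ≤ φ M := by
    intro X
    by_cases hX : X ∈ col r Z P Y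
    · obtain ⟨M, h1, h2⟩ := Finset.exists_max_image (pen X) φ (hpne X hX)
      exact ⟨M, fun _ => ⟨h1, h2⟩⟩
    · exact ⟨X, fun h1 => absurd h1 hX⟩
  choose M hM using hmax
  have hsub : (hyp r Z P Y).erase H0 ⊆ (col r Z P Y).biUnion (fun X => (pen X).erase (M X)) := by
    intro H hH
    rw [Finset.mem_erase] at hH
    obtain ⟨X, hX, hXH, H', hH', hXH', hlt⟩ := hcon H hH.2 H0 hH0 hH.1
    rw [Finset.mem_biUnion]
    refine ⟨X, hX, ?_⟩
    rw [Finset.mem_erase, hpen, Finset.mem_filter]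
    refine ⟨?_, hH.2, hXH⟩
    rintro rfl
    have h1 := (hM X hX).2 H' (by rw [hpen, Finset.mem_filter]; exact ⟨hH', hXH'⟩)
    have h2 : φ (M X) < φ H' := hlt
    omega
  have h1 := (Finset.card_le_card hsub).trans Finset.card_biUnion_le
  rw [Finset.card_erase_of_mem hH0] at h1
  have h2 : ∑ X ∈ col r Z P Y, ((pen X).erase (M X)).card =
      ∑ X ∈ col r Z P Y, ((btw r X Y).card - 2) := by
    apply Finset.sum_congr rfl
    intro X hX
    rw [Finset.card_erase_of_mem (hM X hX).1]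
    have := hcard X hX
    omega
  rw [h2] at h1
  have h3 : ((∑ X ∈ col r Z P Y, ((btw r X Y).card - 2) : ℕ) : ℚ) =
      ∑ X ∈ col r Z P Y, (((btw r X Y).card : ℚ) - 2) := by
    rw [Nat.cast_sum]
    apply Finset.sum_congr rfl
    intro X hX
    rw [Nat.cast_sub (htwo X hX)]
    norm_num
  rw [← h3]
  have h4 : ((hyp r Z P Y).card : ℚ) ≤
      ((∑ X ∈ col r Z P Y, ((btw r X Y).card - 2) : ℕ) : ℚ) + 1 := by
    have : (hyp r Z P Y).card ≤ (∑ X ∈ col r Z P Y, ((btw r X Y).card - 2)) + 1 := by omega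
    exact_mod_cast this
  linarith

end Pool.Agent.Y231.MF
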