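import Pool.Agent.Y467.MF.Bas

/-!
# Project MF: connectivity of the hyperplanes avoiding a point (helper467)
-/

set_option autoImplicit false

namespace Pool.Agent.Y231.MF

open Finset Classical Pool.Agent.Y467.MF

theorem con_spec : S_con := by
  intro L _ _ _ r h Z P Y hZP hP hPY H hH H0 hH0 hne
  rw [mem_hyp] at hH hH0
  obtain ⟨hZH, hHY, hrH, hPH⟩ := hH
  obtain ⟨hZH0, hH0Y, hrH0, hPH0⟩ := hH0
  have hnle : ¬ H0 ≤ H := by
    intro h1
    exact hne (eq_of_rank h h1 (by omega)).symm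
  obtain ⟨Q, hZQ, hrQ, hQH0, hQH⟩ := h.atm Z H H0 hZH hZH0 hnle
  -- the part common to both
  obtain ⟨K, hK, hKmax⟩ := Finset.exists_max_image
    (univ.filter (fun K : L => Z ≤ K ∧ K ≤ H ∧ K ≤ H0)) r
    ⟨Z, by simp [hZH, hZH0]⟩
  simp only [Finset.mem_filter, Finset.mem_univ, true_and] at hK hKmax
  obtain ⟨hZK, hKH, hKH0⟩ := hK
  have hKat : ∀ R : L, Z ≤ R → r R = r Z + 1 → R ≤ H → R ≤ H0 → R ≤ K := by
    intro R h1 h2 h3 h4
    by_contra h5
    have h6 := h.semi Z K R hZK h1 h2 h5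
    have h7 := hKmax (K ⊔ R) ⟨hZK.trans le_sup_left, sup_le hKH h3, sup_le hKH0 h4⟩
    omega
  -- the maximal element
  obtain ⟨X, hX, hXmax⟩ := Finset.exists_max_image
    (univ.filter (fun X : L => K ≤ X ∧ X ≤ H ∧ ¬ P ≤ X ⊔ Q)) r
    ⟨K, by
      simp only [Finset.mem_filter, Finset.mem_univ, true_and, le_refl, hKH]
      intro h1
      exact hPH0 (h1.trans (sup_le hKH0 hQH0))⟩
  simp only [Finset.mem_filter, Finset.mem_univ, true_and] at hX hXmax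
  obtain ⟨hKX, hXH, hPX⟩ := hX
  have hZX : Z ≤ X := hZK.trans hKX
  have hQX : ¬ Q ≤ X := fun h1 => hQH (h1.trans hXH)
  have hrXQ : r (X ⊔ Q) = r X + 1 := h.semi Z X Q hZX hZQ hrQ hQX
  have hXneH : X ≠ H := by
    rintro rfl
    have h1 : X ⊔ Q ≤ Y := sup_le hHY (hQH0.trans hH0Y)
    have h2 := eq_of_rank h h1 (by omega)
    exact hPX (h2 ▸ hPY)
  have hrX : r X < r H := h.mono (lt_of_le_of_ne hXH hXneH)
  have hrX1 : r X + 1 = r H := by
    by_contra hcon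
    have hr2 : r X + 2 ≤ r H := by omega
    obtain ⟨B1, b1, b2, b3, b4⟩ := h.atm Z X H hZX hZH (by
      intro h1
      have := rmono h h1
      omega)
    have hr1 : r (X ⊔ B1) = r X + 1 := h.semi Z X B1 hZX b1 b2 b4
    have hX1H : X ⊔ B1 ≤ H := sup_le hXH b3
    obtain ⟨B2, c1, c2, c3, c4⟩ := h.atm Z (X ⊔ B1) H (hZX.trans le_sup_left) hZH (by
      intro h1
      have := rmono h h1
      omega)
    have c5 : ¬ B2 ≤ X := fun h1 => c4 (h1.trans le_sup_left)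
    have hrX2 : r (X ⊔ B2) = r X + 1 := h.semi Z X B2 hZX c1 c2 c5
    have hX2H : X ⊔ B2 ≤ H := sup_le hXH c3
    have p1 : P ≤ X ⊔ B1 ⊔ Q := by
      by_contra h1
      have := hXmax (X ⊔ B1) ⟨hKX.trans le_sup_left, hX1H, h1⟩
      omega
    have p2 : P ≤ X ⊔ B2 ⊔ Q := by
      by_contra h1
      have := hXmax (X ⊔ B2) ⟨hKX.trans le_sup_left, hX2H, h1⟩
      omega
    have q1 : r (X ⊔ B1 ⊔ Q) = r X + 2 := by
      have := h.semi Z (X ⊔ B1) Q (hZX.trans le_sup_left) hZQ hrQ (fun h1 => hQH (h1.trans hX1H))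
      omega
    have q2 : r (X ⊔ B2 ⊔ Q) = r X + 2 := by
      have := h.semi Z (X ⊔ B2) Q (hZX.trans le_sup_left) hZQ hrQ (fun h1 => hQH (h1.trans hX2H))
      omega
    have q3 : r (X ⊔ Q ⊔ P) = r X + 2 := by
      have := h.semi Z (X ⊔ Q) P (hZX.trans le_sup_left) hZP hP hPX
      omega
    have e1 : X ⊔ Q ⊔ P = X ⊔ B1 ⊔ Q := by
      apply eq_of_rank h
      · exact sup_le (sup_le (le_sup_left.trans le_sup_left) le_sup_right) p1
      · omega
    have e2 : X ⊔ Q ⊔ P = X ⊔ B2 ⊔ Q := by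
      apply eq_of_rank h
      · exact sup_le (sup_le (le_sup_left.trans le_sup_left) le_sup_right) p2
      · omega
    have hB2 : B2 ≤ X ⊔ B1 ⊔ Q := by
      rw [← e1, e2]
      exact le_sup_right.trans le_sup_left
    have f1 : r (X ⊔ B1 ⊔ B2) = r X + 2 := by
      have := h.semi Z (X ⊔ B1) B2 (hZX.trans le_sup_left) c1 c2 c4
      omega
    have f2 : r (X ⊔ B1 ⊔ B2 ⊔ Q) = r X + 3 := by
      have := h.semi Z (X ⊔ B1 ⊔ B2) Q ((hZX.trans le_sup_left).trans le_sup_left) hZQ hrQ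
        (fun h1 => hQH (h1.trans (sup_le hX1H c3)))
      omega
    have f3 : X ⊔ B1 ⊔ B2 ⊔ Q ≤ X ⊔ B1 ⊔ Q :=
      sup_le (sup_le le_sup_left hB2) le_sup_right
    have := rmono h f3
    omega
  refine ⟨X, mem_col.mpr ⟨hZX, hXH.trans hHY, by omega, fun h1 => hPH (h1.trans hXH)⟩, hXH,
    X ⊔ Q, mem_hyp.mpr ⟨hZX.trans le_sup_left, sup_le (hXH.trans hHY) (hQH0.trans hH0Y), by omega,
      hPX⟩, le_sup_left, ?_⟩
  apply Finset.card_lt_card
  rw [Finset.ssubset_iff_of_subset]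
  · refine ⟨Q, ?_, ?_⟩
    · rw [Finset.mem_filter, mem_up]
      exact ⟨⟨hZQ, hrQ⟩, le_sup_right, hQH0⟩
    · rw [Finset.mem_filter]
      exact fun h1 => hQH h1.2.1
  · intro R hR
    rw [Finset.mem_filter, mem_up] at hR ⊢
    exact ⟨hR.1, ((hKat R hR.1.1 hR.1.2 hR.2.1 hR.2.2).trans hKX).trans le_sup_left, hR.2.2⟩

end Pool.Agent.Y231.MF
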