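import Pool.Agent.Y231.MF.Defs

/-!
# Statements of project MF (frozen statement S11773, MP_d93cb3_co)
-/

set_option autoImplicit false

namespace Pool.Agent.Y231.MF

open Finset Classical

/-! ## Lattice part -/

/-- grouping the atoms of `[X,W]` other than `Y` by their join with `Y` -/
def S_fib : Prop := ∀ (L : Type) [SemilatticeSup L] [OrderTop L] [Fintype L] (r : L → ℕ), GLat r →
  ∀ X Y W : L, X ≤ Y → r Y = r X + 1 → Y ≤ W → ∀ y : L → ℚ,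
    ∑ Q ∈ (btw r X W).erase Y, y Q = ∑ Z ∈ btw r Y W, ∑ Q ∈ (btw r X Z).erase Y, y Q

def S_cnt : Prop := ∀ (L : Type) [SemilatticeSup L] [OrderTop L] [Fintype L] (r : L → ℕ), GLat r →
  ∀ X Y W : L, X ≤ Y → r Y = r X + 1 → Y ≤ W →
    ((btw r X W).card : ℚ) - 1 - (btw r Y W).card
      = ∑ Z ∈ btw r Y W, (((btw r X Z).card : ℚ) - 2)

/-- injectivity of the point / hyperplane non-incidence matrix -/
def S_inj : Prop := ∀ (L : Type) [SemilatticeSup L] [OrderTop L] [Fintype L] (r : L → ℕ), GLat r →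
  ∀ Z Y : L, Z ≤ Y → ∀ y : L → ℚ,
    (∀ H, Z ≤ H → H ≤ Y → r H + 1 = r Y → ∑ Q ∈ (btw r Z Y).filter (fun Q => ¬ Q ≤ H), y Q = 0) →
    ∀ Q ∈ btw r Z Y, y Q = 0

/-- number of coatoms of `[Z,Y]` not above the atom `P` -/
def S_hyp : Prop := ∀ (L : Type) [SemilatticeSup L] [OrderTop L] [Fintype L] (r : L → ℕ), GLat r →
  ∀ Z P Y : L, Z ≤ P → r P = r Z + 1 → P ≤ Y →
    1 + ∑ Λ ∈ btw r P Y, (((btw r Z Λ).card : ℚ) - 2) ≤ ((hyp r Z P Y).card : ℚ)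

/-- the coatoms not above `P` are connected through elements of corank two not above `P` -/
def S_con : Prop := ∀ (L : Type) [SemilatticeSup L] [OrderTop L] [Fintype L] (r : L → ℕ), GLat r →
  ∀ Z P Y : L, Z ≤ P → r P = r Z + 1 → P ≤ Y → ∀ H ∈ hyp r Z P Y, ∀ H0 ∈ hyp r Z P Y, H ≠ H0 →
    ∃ X ∈ col r Z P Y, X ≤ H ∧ ∃ H' ∈ hyp r Z P Y, X ≤ H' ∧
      ((up r Z 1).filter (fun Q => Q ≤ H ∧ Q ≤ H0)).card
        < ((up r Z 1).filter (fun Q => Q ≤ H' ∧ Q ≤ H0)).card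

def S_col : Prop := ∀ (L : Type) [SemilatticeSup L] [OrderTop L] [Fintype L] (r : L → ℕ), GLat r →
  ∀ Z P Y : L, Z ≤ P → r P = r Z + 1 → P ≤ Y →
    ∑ Λ ∈ btw r P Y, (((btw r Z Λ).card : ℚ) - 2)
      ≤ ∑ X ∈ col r Z P Y, (((btw r X Y).card : ℚ) - 2)

/-- at least as many elements of relative rank `j` as in a Boolean lattice -/
def S_cho : Prop := ∀ (L : Type) [SemilatticeSup L] [OrderTop L] [Fintype L] (r : L → ℕ), GLat r →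
  ∀ (Z : L) (j : ℕ), (r ⊤ - r Z).choose j ≤ (up r Z j).card

/-- the recursion inequality -/
def S_rec : Prop := ∀ (L : Type) [SemilatticeSup L] [OrderTop L] [Fintype L] (r : L → ℕ), GLat r →
  ∀ τ : L → ℚ, (∀ X, 0 ≤ τ X) →
    (∀ X Y : L, X ≤ Y → r Y = r X + 1 →
      τ Y + (((up r X 1).card : ℚ) - 1 - (up r Y 1).card) / 2 ≤ τ X) →
    ∀ Z P : L, Z ≤ P → r P = r Z + 1 → ∀ j : ℕ,
      FP r τ P j + FF r τ P j +
          ∑ Λ ∈ up r P 1, (((btw r Z Λ).card : ℚ) - 2) *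
            (FP r τ Λ j + ((up r Λ j).card : ℚ) / 2)
        ≤ FF r τ Z j

/-- the lower bound in geometric lattices -/
def S_lat : Prop := ∀ (L : Type) [SemilatticeSup L] [OrderTop L] [Fintype L] (r : L → ℕ), GLat r →
  ∀ τ : L → ℚ, (∀ X, 1 ≤ τ X) →
    (∀ X Y : L, X ≤ Y → r Y = r X + 1 →
      τ Y + (((up r X 1).card : ℚ) - 1 - (up r Y 1).card) / 2 ≤ τ X) →
    ∀ (Z : L) (j : ℕ), gg (r ⊤ - r Z) j (up r Z 1).card ≤ FF r τ Z j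

/-! ## Geometric part -/

def S_sep : Prop := ∀ (m : ℕ) (X : Submodule ℝ (Fin m → ℝ)) (v : Fin m → ℝ), v ∉ X →
  ∃ x : Fin m → ℝ, Ann X x ∧ dotProduct v x ≠ 0

def S_add : Prop := ∀ (ι : Type) [Fintype ι] (m : ℕ) (a : ι → Fin m → ℝ)
  (X : Submodule ℝ (Fin m → ℝ)) (S : Finset ι) (i : ι), i ∉ S → a i ∉ X →
    (Reg a X S).card + (Reg a (X ⊔ Submodule.span ℝ {a i}) S).card ≤ (Reg a X (insert i S)).card

def S_mon : Prop := ∀ (ι : Type) [Fintype ι] (m : ℕ) (a : ι → Fin m → ℝ)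
  (X : Submodule ℝ (Fin m → ℝ)) (S S' : Finset ι), S ⊆ S' → (∀ i ∈ S', a i ∉ X) →
    (Reg a X S).card ≤ (Reg a X S').card

def S_sub : Prop := ∀ (ι : Type) [Fintype ι] (m : ℕ) (a : ι → Fin m → ℝ)
  (X X' : Submodule ℝ (Fin m → ℝ)) (S : Finset ι), X ≤ X' →
    Reg a X' S ⊆ Reg a X S

def S_pow : Prop := ∀ (ι : Type) [Fintype ι] (m : ℕ) (a : ι → Fin m → ℝ)
  (X : Submodule ℝ (Fin m → ℝ)) (S : Finset ι), X ⊔ spn a S = ⊤ → (∀ i ∈ S, a i ∉ X) →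
    2 ^ (m - Module.finrank ℝ X) ≤ (Reg a X S).card

def S_low : Prop := ∀ (ι : Type) [Fintype ι] (m : ℕ) (a : ι → Fin m → ℝ)
  (X : Submodule ℝ (Fin m → ℝ)) (S : Finset ι), IsFl a X → (∀ i ∈ S, a i ∉ X) →
    (Reg a X S).card ≤ tt a X

def S_upp : Prop := ∀ (ι : Type) [Fintype ι] (m : ℕ) (a : ι → Fin m → ℝ)
  (X : Submodule ℝ (Fin m → ℝ)) (S : Finset ι), IsFl a X → (∀ i ∈ S, a i ∉ X) →
    (∀ i, a i ∉ X → ∃ j ∈ S, X ⊔ Submodule.span ℝ {a i} = X ⊔ Submodule.span ℝ {a j}) →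
    tt a X ≤ (Reg a X S).card

def S_tau : Prop := ∀ (ι : Type) [Fintype ι] (m : ℕ) (a : ι → Fin m → ℝ)
  (X Y : Submodule ℝ (Fin m → ℝ)), IsFl a X → IsFl a Y → spn a Set.univ = ⊤ → X ≤ Y →
    Module.finrank ℝ Y = Module.finrank ℝ X + 1 →
    2 * (tt a Y : ℚ) + 2 ^ (m - Module.finrank ℝ Y) * (((cov a X).card : ℚ) - 1 - (cov a Y).card)
      ≤ (tt a X : ℚ)

/-! ## The extremal example -/

def S_base : Prop := ∀ n : ℕ, 2 ≤ n → ∃ a : Fin n → Fin 2 → ℝ,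
  Good a ∧ cc a 0 = 2 * n ∧ cc a 1 = 2 * n ∧ cc a 2 = 1

def S_step : Prop := ∀ (n m : ℕ) (a : Fin n → Fin m → ℝ), Good a →
  ∃ a' : Fin (n + 1) → Fin (m + 1) → ℝ, Good a' ∧ cc a' 0 = 2 * cc a 0 ∧
    ∀ ρ, cc a' (ρ + 1) = 2 * cc a (ρ + 1) + cc a ρ

def S_exi : Prop := ∀ d n : ℕ, 1 ≤ d → d + 1 ≤ n → ∃ a : Fin n → Fin (d + 1) → ℝ,
  Good a ∧ ∀ ρ, (cc a ρ : ℚ) * 2 ^ ρ = 2 ^ (d + 1) * gg (d + 1) ρ n

/-! ## Arithmetic -/

def S_ari : Prop := ∀ d k n : ℕ, 1 ≤ d → k ≤ d →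
  (2 : ℚ) ^ k * gg (d + 1) (d - k) n =
    (2 : ℚ) ^ ((k : ℤ) - 1) * (2 * (d.choose k : ℚ) - (if k = 0 then (0 : ℚ) else ((d - 1).choose (k - 1) : ℚ))) * (n : ℚ)
          - (2 : ℚ) ^ ((k : ℤ) - 1) * ((d : ℚ) + 1) * (2 * (k : ℚ) / ((k : ℚ) + 1) * (d.choose k : ℚ) - (if k = 0 then (0 : ℚ) else ((d - 1).choose (k - 1) : ℚ)))

end Pool.Agent.Y231.MF
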