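import Mathlib
import Pool.Agent.Y231.MF.Stm

/-!
# Project MF: covectors with zero set `X` versus regions
-/

set_option autoImplicit false
set_option linter.unusedSectionVars false

namespace Pool.Agent.Y231.MF

open Finset Classical

namespace Cvr

/-- Small perturbations keep finitely many strict signs. -/
theorem perturb {ι : Type} (S : Finset ι) (p q : ι → ℝ) : ∃ ε : ℝ, 0 < ε ∧
    ∀ j ∈ S, (0 < p j → 0 < p j + ε * q j) ∧ (p j < 0 → p j + ε * q j < 0) := by
  have h : ∀ᶠ e : ℝ in nhds 0, ∀ j ∈ S, (0 < p j → 0 < p j + e * q j) ∧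
      (p j < 0 → p j + e * q j < 0) := by
    rw [Filter.eventually_all_finset]
    intro j _
    have hc : Filter.Tendsto (fun e : ℝ => p j + e * q j) (nhds 0) (nhds (p j)) := by
      have : Continuous (fun e : ℝ => p j + e * q j) := by fun_prop
      have h2 := this.tendsto 0
      simpa using h2
    by_cases h0 : 0 < p j
    · filter_upwards [hc.eventually (lt_mem_nhds h0)] with e he
      exact ⟨fun _ => he, fun h => absurd h (not_lt.2 h0.le)⟩
    · by_cases h1 : p j < 0
      · filter_upwards [hc.eventually (gt_mem_nhds h1)] with e he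
        exact ⟨fun h => absurd h h0, fun _ => he⟩
      · exact Filter.Eventually.of_forall fun e => ⟨fun h => absurd h h0, fun h => absurd h h1⟩
  obtain ⟨δ, hδ, h2⟩ := Metric.eventually_nhds_iff.1 h
  refine ⟨δ / 2, by positivity, h2 ?_⟩
  rw [dist_zero_right, Real.norm_eq_abs, abs_of_pos (by positivity)]
  linarith

theorem ann_add {m : ℕ} {X : Submodule ℝ (Fin m → ℝ)} {x y : Fin m → ℝ} (hx : Ann X x) (hy : Ann X y)
    (e : ℝ) : Ann X (x + e • y) := by
  intro u hu
  rw [dotProduct_add, dotProduct_smul, hx u hu, hy u hu]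
  simp

theorem dval {m : ℕ} (u x y : Fin m → ℝ) (e : ℝ) :
    dotProduct u (x + e • y) = dotProduct u x + e * dotProduct u y := by
  rw [dotProduct_add, dotProduct_smul, smul_eq_mul]

/-- Generic vectors orthogonal to `X`. -/
theorem generic (hs : S_sep) {ι : Type} {m : ℕ} (a : ι → Fin m → ℝ) (X : Submodule ℝ (Fin m → ℝ))
    (U : Finset ι) : (∀ i ∈ U, a i ∉ X) → ∃ y, Ann X y ∧ ∀ i ∈ U, dotProduct (a i) y ≠ 0 := by
  induction U using Finset.induction_on with
  | empty =>
    intro _
    refine ⟨0, fun u _ => by simp, fun i hi => absurd hi (notMem_empty i)⟩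
  | insert i U hiU ih =>
    intro hU
    obtain ⟨y, hy, hyU⟩ := ih (fun j hj => hU j (mem_insert_of_mem hj))
    by_cases h0 : dotProduct (a i) y = 0
    · obtain ⟨z, hz, hz0⟩ := hs m X (a i) (hU i (mem_insert_self i U))
      obtain ⟨ε, hε, hp⟩ := perturb U (fun j => dotProduct (a j) y) (fun j => dotProduct (a j) z)
      refine ⟨y + ε • z, ann_add hy hz ε, ?_⟩
      intro j hj
      rw [dval]
      rw [mem_insert] at hj
      rcases hj with rfl | hj
      · rw [h0, zero_add]
        exact mul_ne_zero hε.ne' hz0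
      · rcases lt_or_gt_of_ne (hyU j hj) with h | h
        · exact ((hp j hj).2 h).ne
        · exact ((hp j hj).1 h).ne'
    · refine ⟨y, hy, ?_⟩
      intro j hj
      rw [mem_insert] at hj
      rcases hj with rfl | hj
      · exact h0
      · exact hyU j hj

end Cvr

open Cvr

theorem low_spec (hs : S_sep) : S_low := by
  intro ι _ m a X S hX hS
  unfold tt
  refine le_trans (card_le_card (t := (univ.filter (fun σ : ι → SignType =>
    (∃ x : Fin m → ℝ, ∀ i, SignType.sign (dotProduct (a i) x) = σ i) ∧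
      Submodule.span ℝ (a '' {i | σ i = 0}) = X)).image (fun σ => S.filter (fun i => σ i = 1))) ?_)
    card_image_le
  intro T hT
  unfold Reg at hT
  rw [mem_filter, mem_powerset] at hT
  obtain ⟨hTS, x, hx, h1, h2⟩ := hT
  obtain ⟨y, hy, hy0⟩ := generic hs a X (univ.filter (fun i => a i ∉ X)) (by
    intro i hi
    exact (mem_filter.1 hi).2)
  obtain ⟨ε, hε, hp⟩ := perturb (univ : Finset ι) (fun j => dotProduct (a j) x)
    (fun j => dotProduct (a j) y)
  have hann := ann_add hx hy ε
  have hzero : ∀ i, dotProduct (a i) (x + ε • y) = 0 ↔ a i ∈ X := by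
    intro i
    constructor
    · intro h
      by_contra hi
      have hyi : dotProduct (a i) y ≠ 0 := hy0 i (mem_filter.2 ⟨mem_univ i, hi⟩)
      rw [dval] at h
      rcases lt_trichotomy (dotProduct (a i) x) 0 with h3 | h3 | h3
      · have h4 : dotProduct (a i) x + ε * dotProduct (a i) y < 0 := (hp i (mem_univ i)).2 h3
        linarith
      · rw [h3, zero_add] at h
        exact (mul_ne_zero hε.ne' hyi) h
      · have h4 : 0 < dotProduct (a i) x + ε * dotProduct (a i) y := (hp i (mem_univ i)).1 h3
        linarith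
    · exact fun h => hann (a i) h
  rw [mem_image]
  refine ⟨fun i => SignType.sign (dotProduct (a i) (x + ε • y)), ?_, ?_⟩
  · rw [mem_filter]
    refine ⟨mem_univ _, ⟨x + ε • y, fun i => rfl⟩, ?_⟩
    have : {i | SignType.sign (dotProduct (a i) (x + ε • y)) = 0} = {i | a i ∈ X} := by
      ext i
      rw [Set.mem_ofPred_eq, Set.mem_ofPred_eq, sign_eq_zero_iff, hzero i]
    rw [this]
    exact hX
  · ext i
    rw [mem_filter]
    constructor
    · rintro ⟨hiS, hi⟩
      by_contra hiT
      have h3 := h2 i (mem_sdiff.2 ⟨hiS, hiT⟩)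
      have h4 : dotProduct (a i) x + ε * dotProduct (a i) y < 0 := (hp i (mem_univ i)).2 h3
      rw [sign_eq_one_iff, dval] at hi
      linarith
    · intro hiT
      refine ⟨hTS hiT, ?_⟩
      have h4 := (hp i (mem_univ i)).1 (h1 i hiT)
      rw [sign_eq_one_iff, dval]
      exact h4

theorem upp_spec : S_upp := by
  intro ι _ m a X S hX hS hcov
  unfold tt
  -- basic facts on the covectors
  have hz : ∀ σ : ι → SignType, ∀ x : Fin m → ℝ, (∀ i, SignType.sign (dotProduct (a i) x) = σ i) →
      Submodule.span ℝ (a '' {i | σ i = 0}) = X → Ann X x ∧ ∀ i, a i ∉ X → σ i ≠ 0 := by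
    intro σ x hx hs
    constructor
    · intro u hu
      rw [← hs] at hu
      induction hu using Submodule.span_induction with
      | mem u hu =>
        obtain ⟨i, hi, rfl⟩ := hu
        have hi0 : σ i = 0 := hi
        rw [← hx i, sign_eq_zero_iff] at hi0
        exact hi0
      | zero => simp
      | add u v _ _ h1 h2 => rw [add_dotProduct, h1, h2, add_zero]
      | smul c u _ h1 => rw [smul_dotProduct, h1, smul_zero]
    · intro i hi h0
      apply hi
      rw [← hs]
      exact Submodule.subset_span ⟨i, h0, rfl⟩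
  refine card_le_card_of_injOn (fun σ => S.filter (fun i => σ i = 1)) ?_ ?_
  · intro σ hσ
    rw [mem_coe, mem_filter] at hσ
    obtain ⟨_, ⟨x, hx⟩, hs⟩ := hσ
    obtain ⟨hann, hne⟩ := hz σ x hx hs
    rw [mem_coe]
    unfold Reg
    rw [mem_filter, mem_powerset]
    refine ⟨filter_subset _ _, x, hann, ?_, ?_⟩
    · intro i hi
      have h1 := (mem_filter.1 hi).2
      rw [← hx i, sign_eq_one_iff] at h1
      exact h1
    · intro i hi
      rw [mem_sdiff, mem_filter, not_and] at hi
      have h1 := hi.2 hi.1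
      have h2 := hne i (hS i hi.1)
      rw [← hx i] at h1 h2
      rw [ne_eq, sign_eq_zero_iff] at h2
      rw [sign_eq_one_iff] at h1
      push Not at h1
      exact lt_of_le_of_ne h1 h2
  · intro σ hσ σ' hσ' heq
    rw [mem_coe, mem_filter] at hσ hσ'
    obtain ⟨_, ⟨x, hx⟩, hs⟩ := hσ
    obtain ⟨_, ⟨x', hx'⟩, hs'⟩ := hσ'
    obtain ⟨hann, hne⟩ := hz σ x hx hs
    obtain ⟨hann', hne'⟩ := hz σ' x' hx' hs'
    have heq' : S.filter (fun i => σ i = 1) = S.filter (fun i => σ' i = 1) := heq
    have hSeq : ∀ j ∈ S, σ j = σ' j := by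
      intro j hj
      have h1 := hne j (hS j hj)
      have h2 := hne' j (hS j hj)
      have h3 : σ j = 1 ↔ σ' j = 1 := by
        have := Finset.ext_iff.1 heq' j
        rw [mem_filter, mem_filter] at this
        exact ⟨fun h => (this.1 ⟨hj, h⟩).2, fun h => (this.2 ⟨hj, h⟩).2⟩
      cases hσj : σ j <;> cases hσj' : σ' j <;> simp_all
    funext i
    by_cases hi : a i ∈ X
    · rw [← hx i, ← hx' i, hann (a i) hi, hann' (a i) hi]
    · obtain ⟨j, hj, hij⟩ := hcov i hi
      have h1 : a i ∈ X ⊔ Submodule.span ℝ {a j} := by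
        rw [← hij]
        exact Submodule.mem_sup_right (Submodule.mem_span_singleton_self _)
      obtain ⟨u, hu, v, hv, huv⟩ := Submodule.mem_sup.1 h1
      obtain ⟨c, rfl⟩ := Submodule.mem_span_singleton.1 hv
      rw [← hx i, ← hx' i, ← huv, add_dotProduct, add_dotProduct, hann u hu, hann' u hu,
        smul_dotProduct, smul_dotProduct, zero_add, zero_add, smul_eq_mul, smul_eq_mul, sign_mul,
        sign_mul, hx j, hx' j, hSeq j hj]

end Pool.Agent.Y231.MF
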