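import Mathlib

/-!
# Definitions for project MF: the minimum number of faces of real projective arrangements

`GLat r` : the join semilattice `L` with rank function `r` behaves like a geometric lattice
(all intervals are geometric).
-/

set_option autoImplicit false

namespace Pool.Agent.Y231.MF

open Finset Classical

section Lattice

variable {L : Type*} [SemilatticeSup L] [OrderTop L] [Fintype L]

/-- An abstract geometric lattice with rank function `r`. -/
structure GLat (r : L → ℕ) : Prop where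
  /-- the rank is strictly monotone -/
  mono : StrictMono r
  /-- semimodularity: an atom `P` over `Z` not below `X ≥ Z` raises the rank of `X` by one -/
  semi : ∀ Z X P : L, Z ≤ X → Z ≤ P → r P = r Z + 1 → ¬ P ≤ X → r (X ⊔ P) = r X + 1
  /-- atomicity: if `Y` is not below `X`, there is an atom `Q` over `Z` below `Y`, not below `X` -/
  atm : ∀ Z X Y : L, Z ≤ X → Z ≤ Y → ¬ Y ≤ X → ∃ Q, Z ≤ Q ∧ r Q = r Z + 1 ∧ Q ≤ Y ∧ ¬ Q ≤ X

/-- the elements above `Z` of relative rank `j` -/
noncomputable def up (r : L → ℕ) (Z : L) (j : ℕ) : Finset L :=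
  univ.filter (fun X => Z ≤ X ∧ r X = r Z + j)

/-- the atoms over `X` which are below `Y` -/
noncomputable def btw (r : L → ℕ) (X Y : L) : Finset L :=
  univ.filter (fun Q => X ≤ Q ∧ r Q = r X + 1 ∧ Q ≤ Y)

/-- the coatoms of the interval `[Z,Y]` which are not above `P` -/
noncomputable def hyp (r : L → ℕ) (Z P Y : L) : Finset L :=
  univ.filter (fun H => Z ≤ H ∧ H ≤ Y ∧ r H + 1 = r Y ∧ ¬ P ≤ H)

/-- the elements of corank two of the interval `[Z,Y]` which are not above `P` -/
noncomputable def col (r : L → ℕ) (Z P Y : L) : Finset L :=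
  univ.filter (fun X => Z ≤ X ∧ X ≤ Y ∧ r X + 2 = r Y ∧ ¬ P ≤ X)

/-- the weighted number of elements of relative rank `j` over `Z` -/
noncomputable def FF (r : L → ℕ) (τ : L → ℚ) (Z : L) (j : ℕ) : ℚ := ∑ X ∈ up r Z j, τ X

/-- the same with the index shifted by one (zero for `j = 0`) -/
noncomputable def FP (r : L → ℕ) (τ : L → ℚ) (Z : L) : ℕ → ℚ
  | 0 => 0
  | (j + 1) => FF r τ Z j

/-- `binomial(s, j - 1)` -/
def cm (s : ℕ) : ℕ → ℕ
  | 0 => 0
  | (j + 1) => s.choose j

/-- the lower bound for the weighted number of elements of relative rank `j` in an interval of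
rank `s` with `w` atoms -/
def gg (s j w : ℕ) : ℚ :=
  (s.choose j : ℚ) + ((cm (s - 2) j : ℚ) + ((s - 2).choose j : ℚ) / 2) * ((w : ℚ) - s)

end Lattice

section Geometry

variable {ι : Type*} [Fintype ι] {m : ℕ}

/-- the span of the normals with index in `S` -/
def spn (a : ι → Fin m → ℝ) (S : Set ι) : Submodule ℝ (Fin m → ℝ) := Submodule.span ℝ (a '' S)

/-- `X` is a flat -/
def IsFl (a : ι → Fin m → ℝ) (X : Submodule ℝ (Fin m → ℝ)) : Prop := spn a {i | a i ∈ X} = X

/-- the type of flats -/
def Fl (a : ι → Fin m → ℝ) : Type := {X : Submodule ℝ (Fin m → ℝ) // IsFl a X}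

/-- the set of covectors with zero span `X` -/
noncomputable def tt (a : ι → Fin m → ℝ) (X : Submodule ℝ (Fin m → ℝ)) : ℕ :=
  (univ.filter (fun σ : ι → SignType =>
    (∃ x : Fin m → ℝ, ∀ i, SignType.sign (dotProduct (a i) x) = σ i) ∧
      Submodule.span ℝ (a '' {i | σ i = 0}) = X)).card

/-- `x` is orthogonal to `X` -/
def Ann (X : Submodule ℝ (Fin m → ℝ)) (x : Fin m → ℝ) : Prop := ∀ u ∈ X, dotProduct u x = 0

/-- the regions of the arrangement with index set `S` on the orthogonal complement of `X`,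
described by their sets of positive indices -/
noncomputable def Reg (a : ι → Fin m → ℝ) (X : Submodule ℝ (Fin m → ℝ)) (S : Finset ι) :
    Finset (Finset ι) :=
  S.powerset.filter (fun T => ∃ x : Fin m → ℝ, Ann X x ∧ (∀ i ∈ T, 0 < dotProduct (a i) x) ∧
    (∀ i ∈ S \ T, dotProduct (a i) x < 0))

/-- the flats covering the flat `X` -/
noncomputable def cov (a : ι → Fin m → ℝ) (X : Submodule ℝ (Fin m → ℝ)) :
    Finset (Submodule ℝ (Fin m → ℝ)) :=
  (univ.filter (fun i => a i ∉ X)).image (fun i => X ⊔ Submodule.span ℝ {a i})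

/-- the number of covectors whose zero set has rank `ρ` (exactly the set of the frozen statement) -/
noncomputable def cc {n m : ℕ} (a : Fin n → Fin m → ℝ) (ρ : ℕ) : ℕ :=
  Set.ncard {σ : Fin n → SignType |
    (∃ x : Fin m → ℝ, ∀ i, SignType.sign (dotProduct (a i) x) = σ i) ∧
      Module.finrank ℝ (Submodule.span ℝ (a '' {i | σ i = 0})) = ρ}

/-- the hypotheses of the frozen statement -/
def Good {n m : ℕ} (a : Fin n → Fin m → ℝ) : Prop :=
  (∀ i, a i ≠ 0) ∧ (∀ i j, i ≠ j → ∀ c : ℝ, a i ≠ c • a j) ∧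
    (∀ x : Fin m → ℝ, (∀ i, dotProduct (a i) x = 0) → x = 0)

end Geometry

end Pool.Agent.Y231.MF
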