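import Pool.Agent.Y231.MF.Stm

/-!
# Project MF: the extremal arrangements and the arithmetic
-/

set_option autoImplicit false

namespace Pool.Agent.Y231.MF

open Finset Classical

/-- the number of covectors of rank larger than the dimension is zero -/
theorem cc_zero_of_lt {n m : ℕ} (a : Fin n → Fin m → ℝ) (ρ : ℕ) (h : m < ρ) : cc a ρ = 0 := by
  unfold cc
  rw [Set.ncard_eq_zero (Set.toFinite _), Set.eq_empty_iff_forall_notMem]
  rintro σ ⟨-, hσ⟩
  have h1 := Submodule.finrank_le (Submodule.span ℝ (a '' {i | σ i = 0}))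
  rw [hσ] at h1
  simp at h1
  omega

theorem gg_two (ρ n : ℕ) : gg 2 ρ n = if ρ = 0 then (n : ℚ) / 2 else if ρ = 1 then (n : ℚ)
    else if ρ = 2 then 1 else 0 := by
  rcases ρ with _ | _ | _ | ρ
  · simp [gg, cm]; ring
  · simp [gg, cm]
  · simp [gg, cm]
  · have h1 : Nat.choose 2 (ρ + 1 + 1 + 1) = 0 := Nat.choose_eq_zero_of_lt (by omega)
    simp [gg, cm, h1]

theorem gg_succ_zero (d n : ℕ) (hd : 1 ≤ d) : gg (d + 2) 0 (n + 1) = gg (d + 1) 0 n := by
  simp only [gg, cm, Nat.choose_zero_right]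
  push_cast
  ring

theorem gg_succ (d n ρ : ℕ) (hd : 1 ≤ d) :
    gg (d + 2) (ρ + 1) (n + 1) = gg (d + 1) (ρ + 1) n + gg (d + 1) ρ n := by
  obtain ⟨e, rfl⟩ : ∃ e, d = e + 1 := ⟨d - 1, by omega⟩
  have h1 : e + 1 + 2 - 2 = e + 1 := by omega
  have h2 : e + 1 + 1 - 2 = e := by omega
  unfold gg
  rw [h1, h2]
  have h3 : (Nat.choose (e + 1 + 2) (ρ + 1) : ℚ)
      = Nat.choose (e + 1 + 1) ρ + Nat.choose (e + 1 + 1) (ρ + 1) := by
    exact_mod_cast Nat.choose_succ_succ (e + 1 + 1) ρ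
  have h4 : (Nat.choose (e + 1) (ρ + 1) : ℚ) = Nat.choose e ρ + Nat.choose e (ρ + 1) := by
    exact_mod_cast Nat.choose_succ_succ e ρ
  have h5 : (cm (e + 1) (ρ + 1) : ℚ) = cm e (ρ + 1) + cm e ρ := by
    rcases ρ with _ | ρ
    · simp [cm]
    · have h6 : (Nat.choose (e + 1) (ρ + 1) : ℚ) = Nat.choose e ρ + Nat.choose e (ρ + 1) := by
        exact_mod_cast Nat.choose_succ_succ e ρ
      simp only [cm]
      rw [h6]; ring
  rw [h3, h4, h5]
  push_cast
  ring

/-- the extremal arrangements -/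
theorem exi_spec (hb : S_base) (hs : S_step) : S_exi := by
  intro d
  induction d with
  | zero => intro n h; omega
  | succ d ih =>
    intro n _ hn
    rcases Nat.eq_zero_or_pos d with hd | hd
    · subst hd
      obtain ⟨a, hg, h0, h1, h2⟩ := hb n (by omega)
      refine ⟨a, hg, fun ρ => ?_⟩
      show (cc a ρ : ℚ) * 2 ^ ρ = 2 ^ 2 * gg 2 ρ n
      rw [gg_two]
      rcases ρ with _ | _ | _ | ρ
      · rw [h0]; push_cast; norm_num; ring
      · rw [h1]; push_cast; norm_num; ring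
      · rw [show (0 + 1 + 1 : ℕ) = 2 from rfl, h2]; norm_num
      · rw [cc_zero_of_lt a _ (by omega)]; simp
    · obtain ⟨m, rfl⟩ : ∃ m, n = m + 1 := ⟨n - 1, by omega⟩
      obtain ⟨a, hg, hc⟩ := ih m hd (by omega)
      obtain ⟨a', hg', h0, hρ⟩ := hs m (d + 1) a hg
      refine ⟨a', hg', fun ρ => ?_⟩
      rcases ρ with _ | ρ
      · have h1 := hc 0
        have h2 := gg_succ_zero d m hd
        show (cc a' 0 : ℚ) * 2 ^ 0 = 2 ^ (d + 2) * gg (d + 2) 0 (m + 1)
        rw [h0, h2]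
        push_cast
        simp only [pow_zero, mul_one] at h1 ⊢
        rw [h1]
        ring
      · have h1 := hc (ρ + 1)
        have h1' := hc ρ
        have h2 := gg_succ d m ρ hd
        show (cc a' (ρ + 1) : ℚ) * 2 ^ (ρ + 1) = 2 ^ (d + 2) * gg (d + 2) (ρ + 1) (m + 1)
        rw [hρ ρ, h2]
        push_cast
        have h3 : (2 * (cc a (ρ + 1) : ℚ) + cc a ρ) * 2 ^ (ρ + 1)
            = 2 * (cc a (ρ + 1) * 2 ^ (ρ + 1)) + 2 * (cc a ρ * 2 ^ ρ) := by ring
        rw [h3, h1, h1']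
        ring

/-- the arithmetic identity -/
theorem ari_spec : S_ari := by
  intro d k n hd hk
  have hz : (2 : ℚ) ^ ((k : ℤ) - 1) = 2 ^ k / 2 := by
    rw [zpow_sub_one₀ (by norm_num), zpow_natCast]; ring
  rw [hz]
  obtain ⟨e, rfl⟩ : ∃ e, d = e + 1 := ⟨d - 1, by omega⟩
  have h1 : e + 1 + 1 - 2 = e := by omega
  have h2 : e + 1 - 1 = e := by omega
  unfold gg
  rw [h1, h2]
  have hA : ((e + 1 + 1).choose (e + 1 - k) : ℚ) = ((e + 1 + 1).choose (k + 1) : ℚ) := by
    rw [← Nat.choose_symm (show k + 1 ≤ e + 1 + 1 by omega)]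
    congr 2
    omega
  have hB : ((k : ℚ) + 1) * ((e + 1 + 1).choose (k + 1) : ℚ)
      = ((e : ℚ) + 1 + 1) * ((e + 1).choose k : ℚ) := by
    have := Nat.add_one_mul_choose_eq (e + 1) k
    have h3 : (((e + 1 + 1) * (e + 1).choose k : ℕ) : ℚ)
        = (((e + 1 + 1).choose (k + 1) * (k + 1) : ℕ) : ℚ) := by rw [this]
    push_cast at h3
    linarith
  have hk1 : ((k : ℚ) + 1) ≠ 0 := by positivity
  have hB' : ((e + 1 + 1).choose (k + 1) : ℚ)
      = ((e : ℚ) + 1 + 1) * ((e + 1).choose k : ℚ) / ((k : ℚ) + 1) := by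
    rw [← hB]; field_simp
  have hC : (cm e (e + 1 - k) : ℚ) = (e.choose k : ℚ) := by
    rcases Nat.lt_or_ge k (e + 1) with h | h
    · obtain ⟨j, hj⟩ : ∃ j, e + 1 - k = j + 1 := ⟨e - k, by omega⟩
      rw [hj]
      simp only [cm]
      rw [show j = e - k by omega, Nat.choose_symm (by omega)]
    · have : k = e + 1 := by omega
      subst this
      simp [cm]
  have hD : (e.choose (e + 1 - k) : ℚ) = (if k = 0 then (0 : ℚ) else (e.choose (k - 1) : ℚ)) := by
    rcases k with _ | k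
    · simp
    · simp only [Nat.add_eq_zero_iff, one_ne_zero, and_false, if_false]
      rw [show e + 1 - (k + 1) = e - k by omega, show k + 1 - 1 = k by omega,
        Nat.choose_symm (by omega)]
  have hE : ((e + 1).choose k : ℚ)
      = (e.choose k : ℚ) + (if k = 0 then (0 : ℚ) else (e.choose (k - 1) : ℚ)) := by
    rcases k with _ | k
    · simp
    · simp only [Nat.add_eq_zero_iff, one_ne_zero, and_false, if_false]
      rw [show k + 1 - 1 = k by omega]
      have := Nat.choose_succ_succ e k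
      have h3 : ((e + 1).choose (k + 1) : ℚ) = ((e.choose k + e.choose (k + 1) : ℕ) : ℚ) := by
        exact_mod_cast this
      rw [h3]; push_cast; ring
  rw [hA, hB', hC, hD]
  generalize (if k = 0 then (0 : ℚ) else (e.choose (k - 1) : ℚ)) = c at *
  have hF : (e.choose k : ℚ) = ((e + 1).choose k : ℚ) - c := by rw [hE]; ring
  rw [hF]
  push_cast
  field_simp
  ring

end Pool.Agent.Y231.MF
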