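import Pool.Agent.Y231.MF.Stm

/-!
# Project MF, part FIB: grouping atoms by their join (helper814)
-/

set_option autoImplicit false

namespace Pool.Agent.Y231.MF

open Finset Classical

section

variable {L : Type} [SemilatticeSup L] [OrderTop L] [Fintype L] {r : L → ℕ}

theorem fib_mem_btw {X Y Q : L} : Q ∈ btw r X Y ↔ X ≤ Q ∧ r Q = r X + 1 ∧ Q ≤ Y := by
  simp [btw]

theorem fib_eq_of_le (h : GLat r) {A B : L} (hab : A ≤ B) (hr : r A = r B) : A = B := by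
  rcases eq_or_lt_of_le hab with h1 | h1
  · exact h1
  · have := h.mono h1
    omega

theorem fib_join (h : GLat r) {X Y Q : L} (hXY : X ≤ Y) (hY : r Y = r X + 1) (hXQ : X ≤ Q)
    (hQ : r Q = r X + 1) (hne : Q ≠ Y) : r (Q ⊔ Y) = r Y + 1 := by
  have hn : ¬ Q ≤ Y := fun hle => hne (fib_eq_of_le h hle (by omega))
  have := h.semi X Y Q hXY hXQ hQ hn
  rwa [sup_comm] at this

end

theorem fib_spec : S_fib := by
  intro L _ _ _ r h X Y W hXY hY hYW y
  have hmap : ∀ Q ∈ (btw r X W).erase Y, Q ⊔ Y ∈ btw r Y W := by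
    intro Q hQ
    rw [Finset.mem_erase, fib_mem_btw] at hQ
    obtain ⟨hne, hXQ, hrQ, hQW⟩ := hQ
    rw [fib_mem_btw]
    exact ⟨le_sup_right, fib_join h hXY hY hXQ hrQ hne, sup_le hQW hYW⟩
  rw [← Finset.sum_fiberwise_of_maps_to hmap]
  refine Finset.sum_congr rfl fun Z hZ => ?_
  refine Finset.sum_congr ?_ fun _ _ => rfl
  rw [fib_mem_btw] at hZ
  obtain ⟨hYZ, hrZ, hZW⟩ := hZ
  ext Q
  simp only [Finset.mem_filter, Finset.mem_erase, fib_mem_btw]
  constructor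
  · rintro ⟨⟨hne, hXQ, hrQ, hQW⟩, hZ⟩
    exact ⟨hne, hXQ, hrQ, hZ ▸ le_sup_left⟩
  · rintro ⟨hne, hXQ, hrQ, hQZ⟩
    refine ⟨⟨hne, hXQ, hrQ, hQZ.trans hZW⟩, ?_⟩
    refine fib_eq_of_le h (sup_le hQZ hYZ) ?_
    rw [fib_join h hXY hY hXQ hrQ hne, hrZ]

theorem cnt_spec : S_cnt := by
  intro L _ _ _ r h X Y W hXY hY hYW
  have h1 := fib_spec L r h X Y W hXY hY hYW (fun _ => (1 : ℚ))
  simp only [Finset.sum_const, nsmul_eq_mul, mul_one] at h1
  have hYmem : ∀ V, Y ≤ V → Y ∈ btw r X V := fun V hV => fib_mem_btw.2 ⟨hXY, hY, hV⟩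
  have hc : ∀ V, Y ≤ V → (((btw r X V).erase Y).card : ℚ) = ((btw r X V).card : ℚ) - 1 := by
    intro V hV
    have hm := hYmem V hV
    have hpos : 1 ≤ (btw r X V).card := Finset.card_pos.2 ⟨Y, hm⟩
    rw [Finset.card_erase_of_mem hm]
    push_cast [Nat.cast_sub hpos]
    ring
  rw [hc W hYW] at h1
  have h2 : ∑ Z ∈ btw r Y W, (((btw r X Z).erase Y).card : ℚ)
      = ∑ Z ∈ btw r Y W, (((btw r X Z).card : ℚ) - 1) := by
    refine Finset.sum_congr rfl fun Z hZ => hc Z (fib_mem_btw.1 hZ).1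
  rw [h2] at h1
  rw [h1, Finset.sum_sub_distrib, Finset.sum_sub_distrib]
  simp only [Finset.sum_const, nsmul_eq_mul, mul_one]
  ring

theorem btw_top {L : Type} [SemilatticeSup L] [OrderTop L] [Fintype L] (r : L → ℕ) (X : L) :
    btw r X ⊤ = up r X 1 := by
  ext Q
  simp [btw, up]

end Pool.Agent.Y231.MF
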