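import Pool.Agent.Y467.MF.Bas

/-!
# Project MF: number of hyperplanes avoiding a point (helper467)
-/

set_option autoImplicit false

namespace Pool.Agent.Y231.MF

open Finset Classical Pool.Agent.Y467.MF

theorem hyp_spec (hf : S_fib) (hc : S_cnt) (hi : S_inj) : S_hyp := by
  intro L _ _ _ r h Z P Y hZP hP hPY
  have hZY := hZP.trans hPY
  have hcnt := hc L r h Z P Y hZP hP hPY
  rw [← hcnt]
  by_contra hcon
  push Not at hcon
  have hlt : (hyp r Z P Y).card + (btw r P Y).card < (btw r Z Y).card := by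
    have : ((hyp r Z P Y).card : ℚ) + (btw r P Y).card < ((btw r Z Y).card : ℚ) := by linarith
    exact_mod_cast this
  -- the linear system
  let N : Matrix (↥(hyp r Z P Y) ⊕ ↥(btw r P Y)) ↥(btw r Z Y) ℚ := fun j Q =>
    match j with
    | Sum.inl H => if (Q : L) ≤ (H : L) then 0 else 1
    | Sum.inr Λ => if (Q : L) ∈ (btw r Z (Λ : L)).erase P then 1 else 0
  have hker : LinearMap.ker N.mulVecLin ≠ ⊥ := by
    apply LinearMap.ker_ne_bot_of_finrank_lt
    rw [Module.finrank_fintype_fun_eq_card, Module.finrank_fintype_fun_eq_card, Fintype.card_sum,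
      Fintype.card_coe, Fintype.card_coe, Fintype.card_coe]
    exact hlt
  obtain ⟨y, hy, hy0⟩ := Submodule.exists_mem_ne_zero_of_ne_bot hker
  have hyN : ∀ j, ∑ Q, N j Q * y Q = 0 := by
    intro j
    have := congrFun (LinearMap.mem_ker.mp hy) j
    simpa [Matrix.mulVec, dotProduct] using this
  -- extension by zero
  set w : L → ℚ := fun Q => if hQ : Q ∈ btw r Z Y then y ⟨Q, hQ⟩ else 0 with hw
  have hwy : ∀ Q : ↥(btw r Z Y), w Q = y Q := by
    intro Q
    simp only [hw, Finset.coe_mem, dif_pos]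
  have hsumw : ∀ c : L → ℚ, ∑ Q ∈ btw r Z Y, c Q * w Q = ∑ Q : ↥(btw r Z Y), c Q * y Q := by
    intro c
    rw [← Finset.sum_coe_sort]
    exact Finset.sum_congr rfl (fun Q _ => by rw [hwy])
  have hH : ∀ H ∈ hyp r Z P Y, ∑ Q ∈ (btw r Z Y).filter (fun Q => ¬ Q ≤ H), w Q = 0 := by
    intro H hH
    have h1 := hyN (Sum.inl ⟨H, hH⟩)
    have h2 := hsumw (fun Q => if Q ≤ H then 0 else 1)
    have h3 : ∑ Q : ↥(btw r Z Y), (fun Q : L => if Q ≤ H then (0 : ℚ) else 1) Q * y Q = 0 := h1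
    rw [h3] at h2
    rw [Finset.sum_filter]
    refine Eq.trans (Finset.sum_congr rfl ?_) h2
    intro Q _
    by_cases hQ : Q ≤ H
    · simp [hQ]
    · simp [hQ]
  have hΛ : ∀ Λ ∈ btw r P Y, ∑ Q ∈ (btw r Z Λ).erase P, w Q = 0 := by
    intro Λ hΛ
    have h1 := hyN (Sum.inr ⟨Λ, hΛ⟩)
    have h2 := hsumw (fun Q => if Q ∈ (btw r Z Λ).erase P then 1 else 0)
    have h3 : ∑ Q : ↥(btw r Z Y), (fun Q : L => if Q ∈ (btw r Z Λ).erase P then (1 : ℚ) else 0) Q *
      y Q = 0 := h1
    rw [h3] at h2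
    have hsub : (btw r Z Λ).erase P ⊆ btw r Z Y := by
      intro Q hQ
      rw [Finset.mem_erase, mem_btw] at hQ
      rw [mem_btw] at hΛ ⊢
      exact ⟨hQ.2.1, hQ.2.2.1, hQ.2.2.2.trans hΛ.2.2⟩
    have h4 := Finset.sum_subset hsub (f := fun Q =>
      (if Q ∈ (btw r Z Λ).erase P then (1 : ℚ) else 0) * w Q) (by
        intro Q _ hQ
        simp only [if_neg hQ, zero_mul])
    refine Eq.trans (Finset.sum_congr rfl ?_) (h4.trans h2)
    intro Q hQ
    simp only [if_pos hQ, one_mul]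
  have hall := hi L r h Z Y hZY w (by
    intro H hZH hHY hrH
    by_cases hPH : P ≤ H
    · have h1 := hf L r h Z P Y hZP hP hPY (fun Q => if Q ≤ H then 0 else w Q)
      have h2 : ∑ Λ ∈ btw r P Y, ∑ Q ∈ (btw r Z Λ).erase P, (if Q ≤ H then 0 else w Q) = 0 := by
        apply Finset.sum_eq_zero
        intro Λ hΛm
        have hΛm' := mem_btw.mp hΛm
        by_cases hΛH : Λ ≤ H
        · apply Finset.sum_eq_zero
          intro Q hQ
          rw [Finset.mem_erase, mem_btw] at hQ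
          rw [if_pos (hQ.2.2.2.trans hΛH)]
        · rw [← hΛ Λ hΛm]
          apply Finset.sum_congr rfl
          intro Q hQ
          rw [Finset.mem_erase, mem_btw] at hQ
          rw [if_neg]
          intro hQH
          apply hΛH
          have hQP : ¬ Q ≤ P := fun h1 => hQ.1 (eq_of_rank h h1 (by omega))
          have h3 : r (P ⊔ Q) = r P + 1 := h.semi Z P Q hZP hQ.2.1 hQ.2.2.1 hQP
          have h4 : P ⊔ Q = Λ := eq_of_rank h (sup_le hΛm'.1 hQ.2.2.2) (by omega)
          rw [← h4]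
          exact sup_le hPH hQH
      have hPm : P ∈ btw r Z Y := mem_btw.mpr ⟨hZP, hP, hPY⟩
      rw [Finset.sum_filter, ← Finset.sum_erase_add _ _ hPm, if_neg (fun h5 => h5 hPH), add_zero]
      refine Eq.trans (Finset.sum_congr rfl ?_) (h1.trans h2)
      intro Q _
      by_cases hQ : Q ≤ H
      · simp [hQ]
      · simp [hQ]
    · exact hH H (mem_hyp.mpr ⟨hZH, hHY, hrH, hPH⟩))
  apply hy0
  funext Q
  rw [← hwy Q]
  exact hall Q Q.2

end Pool.Agent.Y231.MF
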