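import Pool.Agent.Y231.MF.Stm

/-!
Project MF (helper231), job MF-INJ (helper555): injectivity of the point / hyperplane non-incidence
matrix.
-/

set_option autoImplicit false

namespace Pool.Agent.Y231.MF

open Finset Classical

theorem inj_spec : S_inj := by
  intro L _ _ _ r hr Z Y hZY y hyp0
  have hmono := hr.mono
  have rle : ∀ {a b : L}, a ≤ b → r a ≤ r b := fun h => hmono.monotone h
  have eq_of : ∀ {a b : L}, a ≤ b → r a = r b → a = b := by
    intro a b hab h
    rcases hab.lt_or_eq with h1 | h1
    · exact absurd (hmono h1) (by omega)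
    · exact h1
  set S : L → ℚ := fun F => ∑ Q ∈ (btw r Z Y).filter (fun Q => ¬ Q ≤ F), y Q with hS
  have claim : ∀ k : ℕ, ∀ F : L, Z ≤ F → F ≤ Y → r Y - r F = k → S F = 0 := by
    intro k
    induction k using Nat.strong_induction_on with
    | _ k ih =>
      intro F hZF hFY hk
      rcases Nat.lt_or_ge (r F + 1) (r Y) with h2 | h2
      · -- the main case
        set C := btw r F Y with hC
        set A := (btw r Z Y).filter (fun Q => ¬ Q ≤ F) with hA
        have hcov : ∀ Q, Z ≤ Q → r Q = r Z + 1 → Q ≤ Y → ¬ Q ≤ F → F ⊔ Q ∈ C := by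
          intro Q h3 h4 h5 h6
          rw [hC, btw, Finset.mem_filter]
          exact ⟨Finset.mem_univ _, le_sup_left, hr.semi Z F Q hZF h3 h4 h6, sup_le hFY h5⟩
        have huniq : ∀ Q ∈ A, C.filter (fun F' => Q ≤ F') = {F ⊔ Q} := by
          intro Q hQ
          rw [hA, Finset.mem_filter, btw, Finset.mem_filter] at hQ
          obtain ⟨⟨_, h3, h4, h5⟩, h6⟩ := hQ
          ext F'
          rw [Finset.mem_filter, Finset.mem_singleton]
          constructor
          · rintro ⟨h7, h8⟩
            rw [hC, btw, Finset.mem_filter] at h7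
            have h9 : F ⊔ Q ≤ F' := sup_le h7.2.1 h8
            have h10 := hr.semi Z F Q hZF h3 h4 h6
            exact (eq_of h9 (by rw [h10, h7.2.2.1])).symm
          · rintro rfl
            exact ⟨hcov Q h3 h4 h5 h6, le_sup_right⟩
        have hSF' : ∀ F' ∈ C, S F' = ∑ Q ∈ A, (y Q - if Q ≤ F' then y Q else 0) := by
          intro F' hF'
          rw [hC, btw, Finset.mem_filter] at hF'
          have h3 : (btw r Z Y).filter (fun Q => ¬ Q ≤ F') = A.filter (fun Q => ¬ Q ≤ F') := by
            ext Q
            rw [hA, Finset.mem_filter, Finset.mem_filter, Finset.mem_filter]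
            constructor
            · rintro ⟨h4, h5⟩
              exact ⟨⟨h4, fun h6 => h5 (h6.trans hF'.2.1)⟩, h5⟩
            · rintro ⟨⟨h4, _⟩, h5⟩
              exact ⟨h4, h5⟩
          show ∑ Q ∈ (btw r Z Y).filter (fun Q => ¬ Q ≤ F'), y Q = _
          rw [h3, Finset.sum_filter]
          apply Finset.sum_congr rfl
          intro Q _
          by_cases h4 : Q ≤ F'
          · simp [h4]
          · simp [h4]
        have hzero : ∀ F' ∈ C, S F' = 0 := by
          intro F' hF'
          rw [hC, btw, Finset.mem_filter] at hF'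
          exact ih (r Y - r F') (by omega) F' (hZF.trans hF'.2.1) hF'.2.2.2 rfl
        have hsum : (0 : ℚ) = (C.card : ℚ) * S F - S F := by
          calc (0 : ℚ) = ∑ F' ∈ C, S F' := (Finset.sum_eq_zero hzero).symm
            _ = ∑ F' ∈ C, ∑ Q ∈ A, (y Q - if Q ≤ F' then y Q else 0) :=
                Finset.sum_congr rfl hSF'
            _ = ∑ F' ∈ C, (∑ Q ∈ A, y Q - ∑ Q ∈ A, if Q ≤ F' then y Q else 0) := by
                apply Finset.sum_congr rfl
                intro F' _
                rw [Finset.sum_sub_distrib]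
            _ = (C.card : ℚ) * ∑ Q ∈ A, y Q - ∑ Q ∈ A, ∑ F' ∈ C, if Q ≤ F' then y Q else 0 := by
                rw [Finset.sum_sub_distrib, Finset.sum_const, nsmul_eq_mul, Finset.sum_comm]
            _ = (C.card : ℚ) * ∑ Q ∈ A, y Q - ∑ Q ∈ A, y Q := by
                congr 1
                apply Finset.sum_congr rfl
                intro Q hQ
                rw [← Finset.sum_filter, huniq Q hQ, Finset.sum_singleton]
            _ = (C.card : ℚ) * S F - S F := rfl
        have hcard : 1 < C.card := by
          have hnYF : ¬ Y ≤ F := fun h => by have := rle h; omega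
          obtain ⟨Q1, a1, a2, a3, a4⟩ := hr.atm Z F Y hZF hZY hnYF
          have hF1 := hcov Q1 a1 a2 a3 a4
          have hr1 : r (F ⊔ Q1) = r F + 1 := hr.semi Z F Q1 hZF a1 a2 a4
          have hnYF1 : ¬ Y ≤ F ⊔ Q1 := fun h => by have := rle h; omega
          obtain ⟨Q2, b1, b2, b3, b4⟩ := hr.atm Z (F ⊔ Q1) Y (hZF.trans le_sup_left) hZY hnYF1
          have hF2 := hcov Q2 b1 b2 b3 (fun h => b4 (h.trans le_sup_left))
          rw [Finset.one_lt_card]
          refine ⟨F ⊔ Q1, hF1, F ⊔ Q2, hF2, fun h => b4 ?_⟩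
          rw [h]
          exact le_sup_right
        have h3 : ((C.card : ℚ) - 1) * S F = 0 := by linarith
        rcases mul_eq_zero.mp h3 with h4 | h4
        · have : (1 : ℚ) < C.card := by exact_mod_cast hcard
          linarith
        · exact h4
      · have hle := rle hFY
        rcases Nat.eq_or_lt_of_le hle with h3 | h3
        · -- `F = Y`
          have : F = Y := eq_of hFY h3
          subst this
          show ∑ Q ∈ (btw r Z F).filter (fun Q => ¬ Q ≤ F), y Q = 0
          rw [Finset.filter_false_of_mem, Finset.sum_empty]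
          intro Q hQ
          rw [btw, Finset.mem_filter] at hQ
          exact fun h => h hQ.2.2.2
        · exact hyp0 F hZF hFY (by omega)
  intro Q hQ
  have hQ' := hQ
  rw [btw, Finset.mem_filter] at hQ'
  obtain ⟨_, h1, h2, h3⟩ := hQ'
  have e1 := claim _ Z le_rfl hZY rfl
  have e2 := claim _ Q h1 h3 rfl
  have f1 : (btw r Z Y).filter (fun Q' => ¬ Q' ≤ Z) = btw r Z Y := by
    rw [Finset.filter_true_of_mem]
    intro Q' hQ'
    rw [btw, Finset.mem_filter] at hQ'
    intro h
    have := rle h
    omega
  have f2 : (btw r Z Y).filter (fun Q' => ¬ Q' ≤ Q) = (btw r Z Y).erase Q := by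
    ext Q'
    rw [Finset.mem_filter, Finset.mem_erase]
    constructor
    · rintro ⟨h4, h5⟩
      exact ⟨fun h6 => h5 h6.le, h4⟩
    · rintro ⟨h4, h5⟩
      refine ⟨h5, fun h6 => h4 (eq_of h6 ?_)⟩
      rw [btw, Finset.mem_filter] at h5
      omega
  have g1 : ∑ Q' ∈ btw r Z Y, y Q' = 0 := by rw [← f1]; exact e1
  have g2 : ∑ Q' ∈ (btw r Z Y).erase Q, y Q' = 0 := by rw [← f2]; exact e2
  rw [← Finset.add_sum_erase _ _ hQ, g2, add_zero] at g1
  exact g1

end Pool.Agent.Y231.MF
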