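import Pool.Agent.Y231.MF.Cho

/-!
# Project MF, job LAT (helper908)
-/

set_option autoImplicit false

namespace Pool.Agent.Y231.MF

open Finset Classical

theorem cm_pascal (s : ℕ) (j : ℕ) : (cm (s + 1) (j + 1) : ℚ) = cm s (j + 1) + cm s j := by
  cases j with
  | zero => simp [cm]
  | succ j =>
    simp only [cm]
    rw [Nat.choose_succ_succ']
    push_cast
    ring

theorem lat_spec (hc : S_cnt)
    (hb : ∀ (L : Type) [SemilatticeSup L] [OrderTop L] [Fintype L] (r : L → ℕ) (X : L),
      btw r X ⊤ = up r X 1) (hch : S_cho) (hr : S_rec) : S_lat := by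
  intro L _ _ _ r hG τ hτ1 hτ
  have hτ0 : ∀ X, 0 ≤ τ X := fun X => zero_le_one.trans (hτ1 X)
  -- step 1
  have st1 : ∀ (Z : L) (j : ℕ), ((r ⊤ - r Z).choose j : ℚ) ≤ FF r τ Z j := by
    intro Z j
    have h1 : ((r ⊤ - r Z).choose j : ℚ) ≤ (up r Z j).card := by exact_mod_cast hch L r hG Z j
    refine h1.trans ?_
    unfold FF
    calc ((up r Z j).card : ℚ) = ∑ _X ∈ up r Z j, (1 : ℚ) := by simp
      _ ≤ _ := sum_le_sum fun X _ => hτ1 X
  have hle : ∀ X : L, r X ≤ r ⊤ := fun X => hG.mono.monotone le_top
  have htop : ∀ X : L, r X = r ⊤ → X = ⊤ := by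
    intro X hX
    by_contra h
    have := hG.mono (lt_of_le_of_ne le_top h)
    omega
  have hone : ∀ Z : L, r ⊤ - r Z = 1 → (up r Z 1).card = 1 := by
    intro Z hZ
    rw [card_eq_one]
    refine ⟨⊤, ?_⟩
    ext X
    unfold up
    rw [mem_filter, mem_singleton]
    constructor
    · rintro ⟨-, -, h⟩
      apply htop
      have := hle X
      omega
    · rintro rfl
      exact ⟨mem_univ _, le_top, by omega⟩
  have key : ∀ (s : ℕ) (Z : L) (j : ℕ), r ⊤ - r Z = s →
      gg s j (up r Z 1).card ≤ FF r τ Z j := by
    intro s
    induction s with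
    | zero =>
      intro Z j hs
      have h0 : (up r Z 1).card = 0 := by
        rw [card_eq_zero, eq_empty_iff_forall_notMem]
        intro X hX
        unfold up at hX
        rw [mem_filter] at hX
        have := hle X
        omega
      have h1 := st1 Z j
      rw [hs] at h1
      rw [h0]
      unfold gg
      simpa using h1
    | succ s ih =>
      intro Z j hs
      rcases Nat.eq_zero_or_pos s with h0 | hpos
      · subst h0
        have h1 := st1 Z j
        rw [hs] at h1
        rw [hone Z hs]
        unfold gg
        simpa using h1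
      obtain ⟨s', rfl⟩ : ∃ s', s = s' + 1 := ⟨s - 1, by omega⟩
      obtain ⟨P, hZP, hP⟩ := exists_atom hG (Z := Z) (by omega)
      have hsP : r ⊤ - r P = s' + 1 := by omega
      obtain ⟨K, hK⟩ : ∃ K : ℚ, K = (cm s' j : ℚ) + (s'.choose j : ℚ) / 2 := ⟨_, rfl⟩
      have hE : ∑ Λ ∈ up r P 1, (((btw r Z Λ).card : ℚ) - 2) =
          ((up r Z 1).card : ℚ) - 1 - (up r P 1).card := by
        have := hc L r hG Z P ⊤ hZP hP le_top
        rw [hb, hb] at this
        exact this.symm
      have hrec := hr L r hG τ hτ0 hτ Z P hZP hP j
      have hsum : (((up r Z 1).card : ℚ) - 1 - (up r P 1).card) * K ≤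
          ∑ Λ ∈ up r P 1, (((btw r Z Λ).card : ℚ) - 2) *
            (FP r τ Λ j + ((up r Λ j).card : ℚ) / 2) := by
        rw [← hE, sum_mul]
        apply sum_le_sum
        intro Λ hΛ
        unfold up at hΛ
        rw [mem_filter] at hΛ
        have h4 := two_le_btw hG hZP hP hΛ.2.1 hΛ.2.2
        have h5 : (2 : ℚ) ≤ (btw r Z Λ).card := by exact_mod_cast h4
        apply mul_le_mul_of_nonneg_left _ (by linarith)
        have hsL : r ⊤ - r Λ = s' := by omega
        have h6 : (s'.choose j : ℚ) ≤ (up r Λ j).card := by
          have := hch L r hG Λ j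
          rw [hsL] at this
          exact_mod_cast this
        have h7 : (cm s' j : ℚ) ≤ FP r τ Λ j := by
          cases j with
          | zero => simp [cm, FP]
          | succ j =>
            simp only [cm, FP]
            have := st1 Λ j
            rw [hsL] at this
            exact this
        rw [hK]
        linarith
      have hi1 := ih P j hsP
      -- the identity
      have hid : (((s' + 2).choose j : ℕ) : ℚ) + K * (((up r P 1).card : ℚ) - (s' + 1)) ≤
          FP r τ P j + FF r τ P j := by
        obtain ⟨w, hw⟩ : ∃ w : ℕ, w = (up r P 1).card := ⟨_, rfl⟩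
        rw [← hw] at hi1 ⊢
        cases j with
        | zero =>
          simp only [FP, zero_add]
          refine le_trans (le_of_eq ?_) hi1
          unfold gg
          rw [hK]
          rcases Nat.eq_zero_or_pos s' with h0 | hpos'
          · subst h0
            have hw1 : w = 1 := by rw [hw]; exact hone P hsP
            rw [hw1]
            simp [cm]
          · obtain ⟨u, rfl⟩ : ∃ u, s' = u + 1 := ⟨s' - 1, by omega⟩
            simp [cm]
        | succ j =>
          have hi2 := ih P j hsP
          rw [← hw] at hi2
          simp only [FP]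
          refine le_trans (le_of_eq ?_) (add_le_add hi2 hi1)
          unfold gg
          rw [hK]
          rcases Nat.eq_zero_or_pos s' with h0 | hpos'
          · subst h0
            have hw1 : w = 1 := by rw [hw]; exact hone P hsP
            rw [hw1]
            have h8 : (0 + 2).choose (j + 1) = (0 + 1).choose j + (0 + 1).choose (j + 1) :=
              Nat.choose_succ_succ' _ _
            rw [h8]
            push_cast
            ring
          · obtain ⟨u, rfl⟩ : ∃ u, s' = u + 1 := ⟨s' - 1, by omega⟩
            have e1 : u + 1 + 1 - 2 = u := by omega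
            have h8 : (u + 1 + 2).choose (j + 1) = (u + 1 + 1).choose j + (u + 1 + 1).choose (j + 1) :=
              Nat.choose_succ_succ' _ _
            have h9 : (u + 1).choose (j + 1) = u.choose j + u.choose (j + 1) :=
              Nat.choose_succ_succ' _ _
            rw [e1, h8, h9, cm_pascal]
            push_cast
            ring
      have hfin : gg (s' + 1 + 1) j (up r Z 1).card = (((s' + 2).choose j : ℕ) : ℚ) +
          K * (((up r P 1).card : ℚ) - (s' + 1)) +
          (((up r Z 1).card : ℚ) - 1 - (up r P 1).card) * K := by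
        unfold gg
        have e1 : s' + 1 + 1 - 2 = s' := by omega
        have e2 : s' + 1 + 1 = s' + 2 := by omega
        rw [e1, e2, hK]
        push_cast
        ring
      rw [hfin]
      linarith
  intro Z j
  exact key _ Z j rfl

end Pool.Agent.Y231.MF
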