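import Pool.Agent.Y231.MF.Stm

/-! At least `2 ^ rank` regions. -/

set_option autoImplicit false

namespace Pool.Agent.Y231.MF

open Finset Classical

namespace Pow

variable {ι : Type*} {m : ℕ} (a : ι → Fin m → ℝ)

theorem spn_empty : spn a ((∅ : Finset ι) : Set ι) = ⊥ := by
  unfold spn; simp

theorem spn_insert (i : ι) (B : Finset ι) :
    spn a ((insert i B : Finset ι) : Set ι) = Submodule.span ℝ {a i} ⊔ spn a (B : Set ι) := by
  unfold spn
  rw [Finset.coe_insert, Set.image_insert_eq, Submodule.span_insert]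

theorem sup_insert (X : Submodule ℝ (Fin m → ℝ)) (i : ι) (B : Finset ι) :
    X ⊔ spn a ((insert i B : Finset ι) : Set ι) =
      (X ⊔ Submodule.span ℝ {a i}) ⊔ spn a (B : Set ι) := by
  rw [spn_insert, sup_assoc]

theorem sup_insert' (X : Submodule ℝ (Fin m → ℝ)) (i : ι) (B : Finset ι) :
    X ⊔ spn a ((insert i B : Finset ι) : Set ι) =
      (X ⊔ spn a (B : Set ι)) ⊔ Submodule.span ℝ {a i} := by
  rw [sup_insert, sup_right_comm]

theorem fr_one (U : Submodule ℝ (Fin m → ℝ)) (v : Fin m → ℝ) :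
    Module.finrank ℝ (U ⊔ Submodule.span ℝ {v} : Submodule ℝ (Fin m → ℝ)) ≤
      Module.finrank ℝ U + 1 := by
  have h1 := Submodule.finrank_add_le_finrank_add_finrank U (Submodule.span ℝ {v})
  have h2 := finrank_span_finset_le_card (R := ℝ) ({v} : Finset (Fin m → ℝ))
  rw [Finset.card_singleton] at h2
  have h3 : Module.finrank ℝ (Submodule.span ℝ {v} : Submodule ℝ (Fin m → ℝ)) ≤ 1 := by
    rw [Finset.coe_singleton] at h2; exact h2
  omega

theorem fr_card (U : Submodule ℝ (Fin m → ℝ)) (B : Finset ι) :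
    Module.finrank ℝ (U ⊔ spn a (B : Set ι) : Submodule ℝ (Fin m → ℝ)) ≤
      Module.finrank ℝ U + B.card := by
  induction B using Finset.induction_on with
  | empty => rw [spn_empty, sup_bot_eq]; simp
  | insert i B hi ih =>
    rw [sup_insert', Finset.card_insert_of_notMem hi]
    have := fr_one (U ⊔ spn a (B : Set ι)) (a i)
    omega

theorem claim1 {ι : Type} [Fintype ι] {m : ℕ} (a : ι → Fin m → ℝ) (ha : S_add) (B : Finset ι) :
    ∀ X : Submodule ℝ (Fin m → ℝ),
      Module.finrank ℝ (X ⊔ spn a (B : Set ι) : Submodule ℝ (Fin m → ℝ)) =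
        Module.finrank ℝ X + B.card → 2 ^ B.card ≤ (Reg a X B).card := by
  induction B using Finset.induction_on with
  | empty =>
    intro X _
    rw [Finset.card_empty, pow_zero, Nat.one_le_iff_ne_zero, Finset.card_ne_zero]
    refine ⟨∅, ?_⟩
    unfold Reg
    rw [Finset.mem_filter]
    refine ⟨Finset.mem_powerset_self _, 0, fun u _ => dotProduct_zero u, ?_, ?_⟩
    · intro i hi; simp at hi
    · intro i hi; simp at hi
  | insert i B hi ih =>
    intro X hX
    rw [Finset.card_insert_of_notMem hi] at hX ⊢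
    have h1 := fr_one (X ⊔ spn a (B : Set ι)) (a i)
    rw [← sup_insert'] at h1
    have h2 := fr_card a X B
    have h3 := fr_card a (X ⊔ Submodule.span ℝ {a i}) B
    rw [← sup_insert] at h3
    have h4 := fr_one X (a i)
    have hne : a i ∉ X := by
      intro h
      have : X ⊔ Submodule.span ℝ {a i} = X :=
        sup_eq_left.2 ((Submodule.span_singleton_le_iff_mem _ _).2 h)
      rw [this] at h3
      omega
    have k1 := ih X (by omega)
    have k2 := ih (X ⊔ Submodule.span ℝ {a i}) (by rw [← sup_insert]; omega)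
    have k3 := ha ι m a X B i hi hne
    rw [pow_succ]
    omega

theorem claim2 {ι : Type} [Fintype ι] {m : ℕ} (a : ι → Fin m → ℝ)
    (X : Submodule ℝ (Fin m → ℝ)) (S : Finset ι) (h : X ⊔ spn a (S : Set ι) = ⊤) :
    ∃ B : Finset ι, B ⊆ S ∧ X ⊔ spn a (B : Set ι) = ⊤ ∧
      Module.finrank ℝ (X ⊔ spn a (B : Set ι) : Submodule ℝ (Fin m → ℝ)) =
        Module.finrank ℝ X + B.card := by
  obtain ⟨B, hB, hmax⟩ := Finset.exists_max_image (S.powerset.filter (fun B : Finset ι =>
    Module.finrank ℝ (X ⊔ spn a (B : Set ι) : Submodule ℝ (Fin m → ℝ)) =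
      Module.finrank ℝ X + B.card)) Finset.card ⟨∅, by
        rw [Finset.mem_filter]
        refine ⟨Finset.empty_mem_powerset _, ?_⟩
        rw [spn_empty, sup_bot_eq]; simp⟩
  rw [Finset.mem_filter, Finset.mem_powerset] at hB
  refine ⟨B, hB.1, ?_, hB.2⟩
  by_contra hne
  have : ∃ i ∈ S, a i ∉ X ⊔ spn a (B : Set ι) := by
    by_contra hall
    push Not at hall
    apply hne
    rw [eq_top_iff, ← h]
    refine sup_le le_sup_left ?_
    unfold spn
    rw [Submodule.span_le]
    rintro _ ⟨i, hi, rfl⟩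
    exact hall i hi
  obtain ⟨i, hi, hai⟩ := this
  have hiB : i ∉ B := by
    intro h'
    exact hai ((le_sup_right : spn a (B : Set ι) ≤ X ⊔ spn a (B : Set ι))
      (Submodule.subset_span ⟨i, h', rfl⟩))
  have hlt : X ⊔ spn a (B : Set ι) < (X ⊔ spn a (B : Set ι)) ⊔ Submodule.span ℝ {a i} := by
    refine lt_of_le_of_ne le_sup_left fun e => hai ?_
    rw [e]
    exact (le_sup_right : Submodule.span ℝ {a i} ≤ _) (Submodule.mem_span_singleton_self _)
  have h1 := Submodule.finrank_lt_finrank_of_lt hlt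
  have h2 := fr_one (X ⊔ spn a (B : Set ι)) (a i)
  rw [← sup_insert'] at h1 h2
  have h3 := hmax (insert i B) (by
    rw [Finset.mem_filter, Finset.mem_powerset, Finset.card_insert_of_notMem hiB]
    exact ⟨Finset.insert_subset hi hB.1, by omega⟩)
  rw [Finset.card_insert_of_notMem hiB] at h3
  omega

end Pow

theorem pow_spec (ha : S_add) (hm : S_mon) : S_pow := by
  intro ι _ m a X S h hS
  obtain ⟨B, hB, h1, h2⟩ := Pow.claim2 a X S h
  have h3 := Pow.claim1 a ha B X h2
  have h4 := hm ι m a X B S hB hS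
  rw [h1, finrank_top, Module.finrank_fin_fun] at h2
  have h5 : m - Module.finrank ℝ X = B.card := by omega
  rw [h5]
  exact h3.trans h4

end Pool.Agent.Y231.MF
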