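import Pool.Agent.Y231.MF.Stm

/-!
Project MF (helper231), job MF-REC (helper555): the recursion inequality.
-/

set_option autoImplicit false

namespace Pool.Agent.Y231.MF

open Finset Classical

section

variable {L : Type} [SemilatticeSup L] [OrderTop L] [Fintype L] {r : L → ℕ}

theorem rec_mem_up {Z X : L} {j : ℕ} : X ∈ up r Z j ↔ Z ≤ X ∧ r X = r Z + j := by
  rw [up, Finset.mem_filter]
  exact ⟨fun h => h.2, fun h => ⟨Finset.mem_univ _, h⟩⟩

theorem rec_mem_btw {X Y Q : L} : Q ∈ btw r X Y ↔ X ≤ Q ∧ r Q = r X + 1 ∧ Q ≤ Y := by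
  rw [btw, Finset.mem_filter]
  exact ⟨fun h => h.2, fun h => ⟨Finset.mem_univ _, h⟩⟩

theorem rec_mem_hyp {Z P Y H : L} :
    H ∈ hyp r Z P Y ↔ Z ≤ H ∧ H ≤ Y ∧ r H + 1 = r Y ∧ ¬ P ≤ H := by
  rw [hyp, Finset.mem_filter]
  exact ⟨fun h => h.2, fun h => ⟨Finset.mem_univ _, h⟩⟩

theorem rec_mem_col {Z P Y X : L} :
    X ∈ col r Z P Y ↔ Z ≤ X ∧ X ≤ Y ∧ r X + 2 = r Y ∧ ¬ P ≤ X := by
  rw [col, Finset.mem_filter]
  exact ⟨fun h => h.2, fun h => ⟨Finset.mem_univ _, h⟩⟩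

/-- the elements above an atom -/
theorem rec_FP (hmono : StrictMono r) (τ : L → ℚ) {Z P : L} (hZP : Z ≤ P) (hr : r P = r Z + 1)
    (j : ℕ) : ∑ X ∈ (up r Z j).filter (fun X => P ≤ X), τ X = FP r τ P j := by
  cases j with
  | zero =>
    rw [Finset.filter_false_of_mem, Finset.sum_empty]
    · rfl
    · intro X hX h
      rw [rec_mem_up] at hX
      have := hmono.monotone h
      omega
  | succ j =>
    show _ = ∑ X ∈ up r P j, τ X
    apply Finset.sum_congr _ (fun _ _ => rfl)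
    ext X
    rw [Finset.mem_filter, rec_mem_up, rec_mem_up]
    constructor
    · rintro ⟨⟨_, h2⟩, h3⟩
      exact ⟨h3, by omega⟩
    · rintro ⟨h1, h2⟩
      exact ⟨⟨hZP.trans h1, by omega⟩, h1⟩

end

theorem rec_spec (hf : S_fib) (hc : S_cnt)
    (hb : ∀ (L : Type) [SemilatticeSup L] [OrderTop L] [Fintype L] (r : L → ℕ) (X : L),
      btw r X ⊤ = up r X 1) (hh : S_hyp) (hcol : S_col) : S_rec := by
  intro L _ _ _ r hG τ hτ0 hτ Z P hZP hrP j
  have hmono := hG.mono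
  have eq_of : ∀ {a b : L}, a ≤ b → r a = r b → a = b := by
    intro a b hab h
    rcases hab.lt_or_eq with h1 | h1
    · exact absurd (hmono h1) (by omega)
    · exact h1
  set A := (up r Z j).filter (fun X => ¬ P ≤ X) with hA
  have memA : ∀ {X : L}, X ∈ A ↔ (Z ≤ X ∧ r X = r Z + j) ∧ ¬ P ≤ X := by
    intro X
    rw [hA, Finset.mem_filter, rec_mem_up]
  have hjoin : ∀ X : L, Z ≤ X → ¬ P ≤ X → r (X ⊔ P) = r X + 1 := fun X h1 h2 =>
    hG.semi Z X P h1 hZP hrP h2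
  set w : L → ℚ := fun Λ => ((btw r Z Λ).card : ℚ) - 2 with hw
  -- splitting
  have hsplit : FF r τ Z j = FP r τ P j + ∑ X ∈ A, τ X := by
    rw [← rec_FP hmono τ hZP hrP j, hA]
    exact (Finset.sum_filter_add_sum_filter_not (up r Z j) (fun X => P ≤ X) τ).symm
  -- the lower bound for `τ X`
  have hlow : ∀ X ∈ A, τ (X ⊔ P) + (∑ Z' ∈ up r (X ⊔ P) 1, (((btw r X Z').card : ℚ) - 2)) / 2 ≤
      τ X := by
    intro X hX
    obtain ⟨⟨h1, h2⟩, h3⟩ := memA.mp hX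
    have h4 := hτ X (X ⊔ P) le_sup_left (hjoin X h1 h3)
    have h5 := hc L r hG X (X ⊔ P) ⊤ le_sup_left (hjoin X h1 h3) le_top
    rw [hb, hb] at h5
    rw [← h5]
    exact h4
  have hsum : ∑ X ∈ A, τ (X ⊔ P) +
      (∑ X ∈ A, ∑ Z' ∈ up r (X ⊔ P) 1, (((btw r X Z').card : ℚ) - 2)) / 2 ≤ ∑ X ∈ A, τ X := by
    rw [Finset.sum_div, ← Finset.sum_add_distrib]
    exact Finset.sum_le_sum hlow
  -- exchanging the sums over `Λ`
  have hex : ∀ (k : ℕ) (f : L → ℚ), ∑ Y ∈ up r P k, ∑ Λ ∈ btw r P Y, w Λ * f Y =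
      ∑ Λ ∈ up r P 1, w Λ * ∑ Y ∈ (up r P k).filter (fun Y => Λ ≤ Y), f Y := by
    intro k f
    rw [Finset.sum_comm' (s' := fun Λ => (up r P k).filter (fun Y => Λ ≤ Y)) (t' := up r P 1)]
    · apply Finset.sum_congr rfl
      intro Λ _
      rw [Finset.mul_sum]
    · intro Y Λ
      rw [Finset.mem_filter, rec_mem_btw, rec_mem_up, rec_mem_up]
      tauto
  -- (b1)
  have hb1 : FF r τ P j + ∑ Λ ∈ up r P 1, w Λ * FP r τ Λ j ≤ ∑ X ∈ A, τ (X ⊔ P) := by
    have hmaps : ∀ X ∈ A, X ⊔ P ∈ up r P j := by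
      intro X hX
      obtain ⟨⟨h1, h2⟩, h3⟩ := memA.mp hX
      rw [rec_mem_up]
      refine ⟨le_sup_right, ?_⟩
      rw [hjoin X h1 h3]
      omega
    rw [← Finset.sum_fiberwise_of_maps_to hmaps]
    have h1 : ∀ Y ∈ up r P j, ∑ X ∈ A with X ⊔ P = Y, τ (X ⊔ P) =
        ((hyp r Z P Y).card : ℚ) * τ Y := by
      intro Y hY
      rw [rec_mem_up] at hY
      have h2 : A.filter (fun X => X ⊔ P = Y) = hyp r Z P Y := by
        ext X
        rw [Finset.mem_filter, memA, rec_mem_hyp]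
        constructor
        · rintro ⟨⟨⟨h3, h4⟩, h5⟩, rfl⟩
          refine ⟨h3, le_sup_left, ?_, h5⟩
          rw [hjoin X h3 h5]
        · rintro ⟨h3, h4, h5, h6⟩
          refine ⟨⟨⟨h3, by omega⟩, h6⟩, eq_of (sup_le h4 hY.1) ?_⟩
          rw [hjoin X h3 h6, h5]
      rw [← h2, ← nsmul_eq_mul, ← Finset.sum_const]
      apply Finset.sum_congr rfl
      intro X hX
      rw [(Finset.mem_filter.mp hX).2]
    rw [Finset.sum_congr rfl h1]
    have h2 : ∀ Y ∈ up r P j, τ Y + ∑ Λ ∈ btw r P Y, w Λ * τ Y ≤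
        ((hyp r Z P Y).card : ℚ) * τ Y := by
      intro Y hY
      rw [rec_mem_up] at hY
      have h3 := hh L r hG Z P Y hZP hrP hY.1
      have h4 := mul_le_mul_of_nonneg_right h3 (hτ0 Y)
      rw [add_mul, one_mul, Finset.sum_mul] at h4
      exact h4
    have h3 := Finset.sum_le_sum h2
    rw [Finset.sum_add_distrib, hex j τ] at h3
    refine le_trans (le_of_eq ?_) h3
    congr 1
    apply Finset.sum_congr rfl
    intro Λ hΛ
    rw [rec_mem_up] at hΛ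
    rw [rec_FP hmono τ hΛ.1 hΛ.2 j]
  -- (b2)
  have hb2 : ∑ Λ ∈ up r P 1, w Λ * ((up r Λ j).card : ℚ) ≤
      ∑ X ∈ A, ∑ Z' ∈ up r (X ⊔ P) 1, (((btw r X Z').card : ℚ) - 2) := by
    rw [Finset.sum_comm' (s' := fun Z' => col r Z P Z') (t' := up r P (j + 1))]
    · have h1 : ∀ Z' ∈ up r P (j + 1), ∑ Λ ∈ btw r P Z', w Λ * 1 ≤
          ∑ X ∈ col r Z P Z', (((btw r X Z').card : ℚ) - 2) := by
        intro Z' hZ'
        rw [rec_mem_up] at hZ'
        have h2 := hcol L r hG Z P Z' hZP hrP hZ'.1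
        simpa [hw] using h2
      refine le_trans (le_of_eq ?_) (Finset.sum_le_sum h1)
      rw [hex (j + 1) (fun _ => 1)]
      apply Finset.sum_congr rfl
      intro Λ hΛ
      rw [rec_mem_up] at hΛ
      congr 1
      rw [Finset.sum_const, nsmul_eq_mul, mul_one]
      congr 2
      ext Y
      rw [Finset.mem_filter, rec_mem_up, rec_mem_up]
      constructor
      · rintro ⟨h2, h3⟩
        exact ⟨⟨hΛ.1.trans h2, by omega⟩, h2⟩
      · rintro ⟨⟨_, h2⟩, h3⟩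
        exact ⟨h3, by omega⟩
    · intro X Z'
      rw [memA, rec_mem_up, rec_mem_col, rec_mem_up]
      constructor
      · rintro ⟨⟨⟨h1, h2⟩, h3⟩, h4, h5⟩
        rw [hjoin X h1 h3] at h5
        exact ⟨⟨h1, le_sup_left.trans h4, by omega, h3⟩, le_sup_right.trans h4, by omega⟩
      · rintro ⟨⟨h1, h2, h3, h4⟩, h5, h6⟩
        rw [hjoin X h1 h4]
        exact ⟨⟨⟨h1, by omega⟩, h4⟩, sup_le h2 h5, by omega⟩
  rw [hsplit]
  have hfin : ∑ Λ ∈ up r P 1, (((btw r Z Λ).card : ℚ) - 2) *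
      (FP r τ Λ j + ((up r Λ j).card : ℚ) / 2) =
      ∑ Λ ∈ up r P 1, w Λ * FP r τ Λ j + (∑ Λ ∈ up r P 1, w Λ * ((up r Λ j).card : ℚ)) / 2 := by
    rw [Finset.sum_div, ← Finset.sum_add_distrib]
    apply Finset.sum_congr rfl
    intro Λ _
    simp only [hw]
    ring
  rw [hfin]
  linarith

end Pool.Agent.Y231.MF
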