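import Mathlib
import Pool.Agent.Y231.MF.Stm

/-!
# Project MF: regions of subarrangements, adding one hyperplane
-/

set_option autoImplicit false
set_option linter.unusedSectionVars false

namespace Pool.Agent.Y231.MF

open Finset Classical

theorem sep_spec : S_sep := by
  intro m X v hv
  obtain ⟨f, hf, hfX⟩ := Submodule.exists_dual_map_eq_bot_of_notMem hv inferInstance
  refine ⟨fun i => f (fun j => if i = j then 1 else 0), ?_⟩
  have key : ∀ u : Fin m → ℝ, dotProduct u (fun i => f (fun j => if i = j then 1 else 0)) = f u := by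
    intro u
    rw [LinearMap.pi_apply_eq_sum_univ f u]
    rfl
  refine ⟨?_, ?_⟩
  · intro u hu
    rw [key]
    have : f u ∈ X.map f := Submodule.mem_map_of_mem hu
    rw [hfX] at this
    simpa using this
  · rw [key]
    exact hf

theorem sub_spec : S_sub := by
  intro ι _ m a X X' S hX T hT
  unfold Reg at hT ⊢
  rw [mem_filter] at hT ⊢
  obtain ⟨h1, x, hx, h2, h3⟩ := hT
  exact ⟨h1, x, fun u hu => hx u (hX hu), h2, h3⟩

/-- Small perturbations keep finitely many strict signs. -/
theorem perturb {ι : Type} (S : Finset ι) (p q : ι → ℝ) : ∃ ε : ℝ, 0 < ε ∧ ∀ e : ℝ, |e| ≤ ε →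
    ∀ j ∈ S, (0 < p j → 0 < p j + e * q j) ∧ (p j < 0 → p j + e * q j < 0) := by
  have h : ∀ᶠ e : ℝ in nhds 0, ∀ j ∈ S, (0 < p j → 0 < p j + e * q j) ∧
      (p j < 0 → p j + e * q j < 0) := by
    rw [Filter.eventually_all_finset]
    intro j _
    have hc : Filter.Tendsto (fun e : ℝ => p j + e * q j) (nhds 0) (nhds (p j)) := by
      have : Continuous (fun e : ℝ => p j + e * q j) := by fun_prop
      have h2 := this.tendsto 0
      simpa using h2
    by_cases h0 : 0 < p j
    · filter_upwards [hc.eventually (lt_mem_nhds h0)] with e he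
      exact ⟨fun _ => he, fun h => absurd h (not_lt.2 h0.le)⟩
    · by_cases h1 : p j < 0
      · filter_upwards [hc.eventually (gt_mem_nhds h1)] with e he
        exact ⟨fun h => absurd h h0, fun _ => he⟩
      · exact Filter.Eventually.of_forall fun e => ⟨fun h => absurd h h0, fun h => absurd h h1⟩
  obtain ⟨δ, hδ, h2⟩ := Metric.eventually_nhds_iff.1 h
  refine ⟨δ / 2, by positivity, fun e he => h2 ?_⟩
  rw [dist_zero_right, Real.norm_eq_abs]
  linarith

theorem ann_add {m : ℕ} {X : Submodule ℝ (Fin m → ℝ)} {x y : Fin m → ℝ} (hx : Ann X x) (hy : Ann X y)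
    (e : ℝ) : Ann X (x + e • y) := by
  intro u hu
  rw [dotProduct_add, dotProduct_smul, hx u hu, hy u hu]
  simp

section
variable {ι : Type} [Fintype ι] {m : ℕ}

/-- The regions with `a i` positive or negative. -/
noncomputable def Half (a : ι → Fin m → ℝ) (X : Submodule ℝ (Fin m → ℝ)) (S : Finset ι)
    (i : ι) (s : ℝ) : Finset (Finset ι) :=
  S.powerset.filter (fun T => ∃ x : Fin m → ℝ, Ann X x ∧ (∀ i ∈ T, 0 < dotProduct (a i) x) ∧
    (∀ i ∈ S \ T, dotProduct (a i) x < 0) ∧ 0 < s * dotProduct (a i) x)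

theorem half_of_zero (a : ι → Fin m → ℝ) (X : Submodule ℝ (Fin m → ℝ)) (S : Finset ι) (i : ι)
    (hi : a i ∉ X) (T : Finset ι) (hT : T ⊆ S) (x : Fin m → ℝ) (hx : Ann X x)
    (h1 : ∀ i ∈ T, 0 < dotProduct (a i) x) (h2 : ∀ i ∈ S \ T, dotProduct (a i) x < 0)
    (h0 : dotProduct (a i) x = 0) (s : ℝ) (hs : s ≠ 0) : T ∈ Half a X S i s := by
  obtain ⟨y, hy, hy0⟩ := sep_spec m X (a i) hi
  obtain ⟨ε, hε, hp⟩ := perturb S (fun j => dotProduct (a j) x) (fun j => dotProduct (a j) y)
  -- the sign of `e`
  have hsy : s * dotProduct (a i) y ≠ 0 := mul_ne_zero hs hy0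
  obtain ⟨e, he, hes⟩ : ∃ e : ℝ, |e| ≤ ε ∧ 0 < e * (s * dotProduct (a i) y) := by
    rcases lt_or_gt_of_ne hsy with h | h
    · refine ⟨-ε, by rw [abs_neg, abs_of_pos hε], ?_⟩
      nlinarith
    · exact ⟨ε, by rw [abs_of_pos hε], mul_pos hε h⟩
  have hval : ∀ j, dotProduct (a j) (x + e • y) = dotProduct (a j) x + e * dotProduct (a j) y := by
    intro j
    rw [dotProduct_add, dotProduct_smul, smul_eq_mul]
  unfold Half
  rw [mem_filter, mem_powerset]
  refine ⟨hT, x + e • y, ann_add hx hy e, ?_, ?_, ?_⟩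
  · intro j hj
    rw [hval]
    exact (hp e he j (hT hj)).1 (h1 j hj)
  · intro j hj
    rw [hval]
    exact (hp e he j (mem_sdiff.1 hj).1).2 (h2 j hj)
  · rw [hval, h0]
    linarith [hes]

theorem add_aux (a : ι → Fin m → ℝ) (X : Submodule ℝ (Fin m → ℝ)) (S : Finset ι) (i : ι)
    (hiS : i ∉ S) :
    (Half a X S i 1).card + (Half a X S i (-1)).card ≤ (Reg a X (insert i S)).card := by
  have hinj : Set.InjOn (fun T : Finset ι => insert i T) (Half a X S i 1 : Set (Finset ι)) := by
    intro T hT T' hT' h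
    have hT1 : T ⊆ S := by
      have := Finset.mem_coe.1 hT
      unfold Half at this
      exact mem_powerset.1 (mem_filter.1 this).1
    have hT2 : T' ⊆ S := by
      have := Finset.mem_coe.1 hT'
      unfold Half at this
      exact mem_powerset.1 (mem_filter.1 this).1
    have h' : insert i T = insert i T' := h
    rw [← erase_insert (fun hh => hiS (hT1 hh)), h', erase_insert (fun hh => hiS (hT2 hh))]
  have hdisj : Disjoint ((Half a X S i 1).image (fun T : Finset ι => insert i T))
      (Half a X S i (-1)) := by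
    rw [Finset.disjoint_left]
    intro T hT hT'
    rw [mem_image] at hT
    obtain ⟨U, _, rfl⟩ := hT
    unfold Half at hT'
    exact hiS (mem_powerset.1 (mem_filter.1 hT').1 (mem_insert_self i U))
  rw [← card_image_of_injOn hinj, ← card_union_of_disjoint hdisj]
  apply card_le_card
  intro T hT
  rw [mem_union, mem_image] at hT
  unfold Reg
  rw [mem_filter, mem_powerset]
  rcases hT with ⟨U, hU, rfl⟩ | hT
  · unfold Half at hU
    rw [mem_filter, mem_powerset] at hU
    obtain ⟨hUS, x, hx, h1, h2, h3⟩ := hU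
    refine ⟨insert_subset_insert i hUS, x, hx, ?_, ?_⟩
    · intro j hj
      rw [mem_insert] at hj
      rcases hj with rfl | hj
      · linarith
      · exact h1 j hj
    · intro j hj
      rw [mem_sdiff, mem_insert, mem_insert, not_or] at hj
      obtain ⟨hj1, hj2, hj3⟩ := hj
      exact h2 j (mem_sdiff.2 ⟨hj1.resolve_left hj2, hj3⟩)
  · unfold Half at hT
    rw [mem_filter, mem_powerset] at hT
    obtain ⟨hUS, x, hx, h1, h2, h3⟩ := hT
    refine ⟨hUS.trans (subset_insert i S), x, hx, h1, ?_⟩
    intro j hj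
    rw [mem_sdiff, mem_insert] at hj
    obtain ⟨hj1, hj2⟩ := hj
    rcases hj1 with rfl | hj1
    · linarith
    · exact h2 j (mem_sdiff.2 ⟨hj1, hj2⟩)

end

theorem add_spec : S_add := by
  intro ι _ m a X S i hiS hi
  refine le_trans ?_ (add_aux a X S i hiS)
  rw [← card_union_add_card_inter (Half a X S i 1) (Half a X S i (-1))]
  refine add_le_add (card_le_card ?_) (card_le_card ?_)
  · intro T hT
    unfold Reg at hT
    rw [mem_filter, mem_powerset] at hT
    obtain ⟨hTS, x, hx, h1, h2⟩ := hT
    rw [mem_union]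
    rcases lt_trichotomy (dotProduct (a i) x) 0 with h | h | h
    · right
      unfold Half
      rw [mem_filter, mem_powerset]
      exact ⟨hTS, x, hx, h1, h2, by linarith⟩
    · left
      exact half_of_zero a X S i hi T hTS x hx h1 h2 h 1 one_ne_zero
    · left
      unfold Half
      rw [mem_filter, mem_powerset]
      exact ⟨hTS, x, hx, h1, h2, by linarith⟩
  · intro T hT
    unfold Reg at hT
    rw [mem_filter, mem_powerset] at hT
    obtain ⟨hTS, x, hx, h1, h2⟩ := hT
    have hxX : Ann X x := fun u hu => hx u (Submodule.mem_sup_left hu)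
    have h0 : dotProduct (a i) x = 0 :=
      hx (a i) (Submodule.mem_sup_right (Submodule.mem_span_singleton_self _))
    rw [mem_inter]
    exact ⟨half_of_zero a X S i hi T hTS x hxX h1 h2 h0 1 one_ne_zero,
      half_of_zero a X S i hi T hTS x hxX h1 h2 h0 (-1) (by norm_num)⟩

theorem mon_spec (h : S_add) : S_mon := by
  intro ι _ m a X S S' hSS' hS'
  have key : ∀ U : Finset ι, (∀ i ∈ U, a i ∉ X) → (Reg a X S).card ≤ (Reg a X (S ∪ U)).card := by
    intro U
    induction U using Finset.induction_on with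
    | empty => intro _; rw [union_empty]
    | insert i U hiU ih =>
      intro hU
      have h1 := ih (fun j hj => hU j (mem_insert_of_mem hj))
      rw [union_insert]
      by_cases hi : i ∈ S ∪ U
      · rw [insert_eq_of_mem hi]
        exact h1
      · have h2 := h ι m a X (S ∪ U) i hi (hU i (mem_insert_self i U))
        omega
  have h3 := key S' hS'
  rwa [union_eq_right.2 hSS'] at h3

end Pool.Agent.Y231.MF
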