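import Mathlib
import Pool.Agent.Y231.MF.Stm

/-! # Project MF: adding a coordinate hyperplane (helper433) -/

set_option autoImplicit false

namespace Pool.Agent.Y231.MF

open Finset Classical

namespace StepAux

/-- the new arrangement -/
def ex {n m : ℕ} (a : Fin n → Fin m → ℝ) : Fin (n + 1) → Fin (m + 1) → ℝ :=
  Fin.cons (Pi.single 0 1 : Fin (m + 1) → ℝ) (fun i => Fin.cons (0:ℝ) (a i))

theorem ex_zero {n m : ℕ} (a : Fin n → Fin m → ℝ) :
    ex a 0 = (Pi.single 0 1 : Fin (m + 1) → ℝ) := rfl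

theorem ex_succ {n m : ℕ} (a : Fin n → Fin m → ℝ) (i : Fin n) :
    ex a i.succ = (Fin.cons (0:ℝ) (a i) : Fin (m + 1) → ℝ) := rfl

theorem dot_zero {n m : ℕ} (a : Fin n → Fin m → ℝ) (x : Fin (m + 1) → ℝ) :
    dotProduct (ex a 0) x = x 0 := by
  rw [ex_zero, single_dotProduct, one_mul]

theorem dot_succ {n m : ℕ} (a : Fin n → Fin m → ℝ) (i : Fin n) (x : Fin (m + 1) → ℝ) :
    dotProduct (ex a i.succ) x = dotProduct (a i) (fun j => x j.succ) := by
  rw [ex_succ]
  unfold dotProduct
  rw [Fin.sum_univ_succ]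
  simp

/-- the embedding of the old space -/
def emb (m : ℕ) : (Fin m → ℝ) →ₗ[ℝ] (Fin (m + 1) → ℝ) where
  toFun v := Fin.cons (0:ℝ) v
  map_add' u v := by
    funext i
    refine Fin.cases ?_ (fun j => ?_) i
    · simp
    · simp
  map_smul' c v := by
    funext i
    refine Fin.cases ?_ (fun j => ?_) i
    · simp
    · simp

theorem emb_inj (m : ℕ) : Function.Injective (emb m) := by
  intro u v h
  exact Fin.cons_right_injective (α := fun _ => ℝ) (0:ℝ) h

theorem zeros_ne {n : ℕ} (s : SignType) (hs : s ≠ 0) (σ : Fin n → SignType) :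
    {i : Fin (n + 1) | (Fin.cons s σ : Fin (n + 1) → SignType) i = 0} =
      Fin.succ '' {i | σ i = 0} := by
  ext i
  refine Fin.cases ?_ (fun j => ?_) i
  · simp [hs]
  · simp

theorem zeros_eq {n : ℕ} (σ : Fin n → SignType) :
    {i : Fin (n + 1) | (Fin.cons (0 : SignType) σ : Fin (n + 1) → SignType) i = 0} =
      insert 0 (Fin.succ '' {i | σ i = 0}) := by
  ext i
  refine Fin.cases ?_ (fun j => ?_) i
  · simp
  · simp

theorem img_succ {n m : ℕ} (a : Fin n → Fin m → ℝ) (Z : Set (Fin n)) :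
    ex a '' (Fin.succ '' Z) = emb m '' (a '' Z) := by
  rw [Set.image_image, Set.image_image]
  rfl

theorem rank_ne {n m : ℕ} (a : Fin n → Fin m → ℝ) (s : SignType) (hs : s ≠ 0)
    (σ : Fin n → SignType) :
    Module.finrank ℝ (Submodule.span ℝ
      (ex a '' {i | (Fin.cons s σ : Fin (n + 1) → SignType) i = 0})) =
      Module.finrank ℝ (Submodule.span ℝ (a '' {i | σ i = 0})) := by
  rw [zeros_ne s hs, img_succ, Submodule.span_image]
  exact (LinearEquiv.finrank_eq (Submodule.equivMapOfInjective _ (emb_inj m) _)).symm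

theorem rank_eq {n m : ℕ} (a : Fin n → Fin m → ℝ) (σ : Fin n → SignType) :
    Module.finrank ℝ (Submodule.span ℝ
      (ex a '' {i | (Fin.cons (0 : SignType) σ : Fin (n + 1) → SignType) i = 0})) =
      Module.finrank ℝ (Submodule.span ℝ (a '' {i | σ i = 0})) + 1 := by
  rw [zeros_eq, Set.image_insert_eq, img_succ, Submodule.span_insert, Submodule.span_image,
    ex_zero]
  set X := Submodule.span ℝ (a '' {i | σ i = 0})
  have h1 := Submodule.finrank_sup_add_finrank_inf_eq
    (Submodule.span ℝ {(Pi.single 0 1 : Fin (m + 1) → ℝ)}) (X.map (emb m))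
  have h2 : Submodule.span ℝ {(Pi.single 0 1 : Fin (m + 1) → ℝ)} ⊓ X.map (emb m) = ⊥ := by
    rw [Submodule.eq_bot_iff]
    rintro v ⟨hv1, hv2⟩
    obtain ⟨c, rfl⟩ := Submodule.mem_span_singleton.1 hv1
    obtain ⟨u, -, hu⟩ := hv2
    have h3 := congrFun hu 0
    have h4 : (emb m u) 0 = 0 := rfl
    rw [h4] at h3
    simp only [Pi.smul_apply, Pi.single_eq_same, smul_eq_mul, mul_one] at h3
    rw [← h3, zero_smul]
  have h3 : Module.finrank ℝ (X.map (emb m)) = Module.finrank ℝ X :=
    (LinearEquiv.finrank_eq (Submodule.equivMapOfInjective _ (emb_inj m) _)).symm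
  have h4 : Module.finrank ℝ (Submodule.span ℝ {(Pi.single 0 1 : Fin (m + 1) → ℝ)}) = 1 := by
    apply finrank_span_singleton
    intro h
    have := congrFun h 0
    simp at this
  rw [h2, finrank_bot, h3, h4] at h1
  omega

/-- the covectors -/
theorem cov_iff {n m : ℕ} (a : Fin n → Fin m → ℝ) (s : SignType) (σ : Fin n → SignType) :
    (∃ x : Fin (m + 1) → ℝ, ∀ i, SignType.sign (dotProduct (ex a i) x) =
      (Fin.cons s σ : Fin (n + 1) → SignType) i) ↔
      ∃ x : Fin m → ℝ, ∀ i, SignType.sign (dotProduct (a i) x) = σ i := by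
  constructor
  · rintro ⟨x, hx⟩
    refine ⟨fun j => x j.succ, fun i => ?_⟩
    have := hx i.succ
    rw [dot_succ, Fin.cons_succ] at this
    exact this
  · rintro ⟨x, hx⟩
    refine ⟨Fin.cons ((s : ℤ) : ℝ) x, fun i => ?_⟩
    refine Fin.cases ?_ (fun j => ?_) i
    · rw [dot_zero, Fin.cons_zero, Fin.cons_zero]
      cases s <;> simp
    · rw [dot_succ, Fin.cons_succ]
      simp only [Fin.cons_succ]
      exact hx j

theorem good {n m : ℕ} {a : Fin n → Fin m → ℝ} (h : Good a) : Good (ex a) := by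
  obtain ⟨h1, h2, h3⟩ := h
  refine ⟨?_, ?_, ?_⟩
  · intro i
    refine Fin.cases ?_ (fun j => ?_) i
    · intro h
      have := congrFun h 0
      rw [ex_zero] at this
      simp at this
    · intro h
      apply h1 j
      funext k
      have := congrFun h k.succ
      rw [ex_succ, Fin.cons_succ] at this
      exact this
  · intro i
    refine Fin.cases ?_ (fun i => ?_) i
    · intro j
      refine Fin.cases ?_ (fun j => ?_) j
      · intro h
        exact absurd rfl h
      · intro _ c h
        have := congrFun h 0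
        rw [ex_zero, ex_succ] at this
        simp at this
    · intro j
      refine Fin.cases ?_ (fun j => ?_) j
      · intro _ c h
        apply h1 i
        funext k
        have := congrFun h k.succ
        rw [ex_zero, ex_succ, Fin.cons_succ] at this
        simpa using this
      · intro hne c h
        apply h2 i j (fun h' => hne (by rw [h'])) c
        funext k
        have := congrFun h k.succ
        rw [ex_succ, ex_succ, Fin.cons_succ, Pi.smul_apply, Fin.cons_succ] at this
        exact this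
  · intro x hx
    have h0 : x 0 = 0 := by
      have := hx 0
      rwa [dot_zero] at this
    have hs := h3 (fun j => x j.succ) (fun i => by
      have := hx i.succ
      rwa [dot_succ] at this)
    funext i
    refine Fin.cases ?_ (fun j => ?_) i
    · exact h0
    · exact congrFun hs j

/-- the set of covectors of rank `ρ` -/
def CC {n m : ℕ} (a : Fin n → Fin m → ℝ) (ρ : ℕ) : Set (Fin n → SignType) :=
  {σ | (∃ x : Fin m → ℝ, ∀ i, SignType.sign (dotProduct (a i) x) = σ i) ∧
      Module.finrank ℝ (Submodule.span ℝ (a '' {i | σ i = 0})) = ρ}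

theorem mem_ne {n m : ℕ} (a : Fin n → Fin m → ℝ) (ρ : ℕ) (s : SignType) (hs : s ≠ 0)
    (σ : Fin n → SignType) :
    (Fin.cons s σ : Fin (n + 1) → SignType) ∈ CC (ex a) ρ ↔ σ ∈ CC a ρ := by
  unfold CC
  rw [Set.mem_ofPred_eq, Set.mem_ofPred_eq, cov_iff, rank_ne a s hs]

theorem mem_eq {n m : ℕ} (a : Fin n → Fin m → ℝ) (ρ : ℕ) (σ : Fin n → SignType) :
    (Fin.cons (0 : SignType) σ : Fin (n + 1) → SignType) ∈ CC (ex a) (ρ + 1) ↔ σ ∈ CC a ρ := by
  unfold CC
  rw [Set.mem_ofPred_eq, Set.mem_ofPred_eq, cov_iff, rank_eq a, Nat.add_right_cancel_iff]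

theorem mem_eq0 {n m : ℕ} (a : Fin n → Fin m → ℝ) (σ : Fin n → SignType) :
    (Fin.cons (0 : SignType) σ : Fin (n + 1) → SignType) ∉ CC (ex a) 0 := by
  unfold CC
  rw [Set.mem_ofPred_eq, rank_eq a]
  rintro ⟨-, h⟩
  omega

theorem mem_img {n : ℕ} (s t : SignType) (σ : Fin n → SignType) (A : Set (Fin n → SignType)) :
    (Fin.cons t σ : Fin (n + 1) → SignType) ∈
      (fun σ => (Fin.cons s σ : Fin (n + 1) → SignType)) '' A ↔ t = s ∧ σ ∈ A := by
  constructor
  · rintro ⟨σ', h1, h2⟩
    have e1 := congrFun h2 0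
    simp only [Fin.cons_zero] at e1
    have e2 : σ' = σ := by
      funext i
      have := congrFun h2 i.succ
      simpa using this
    rw [e2] at h1
    exact ⟨e1.symm, h1⟩
  · rintro ⟨rfl, h⟩
    exact ⟨σ, h, rfl⟩

theorem ncard_img {n : ℕ} (s : SignType) (A : Set (Fin n → SignType)) :
    ((fun σ => (Fin.cons s σ : Fin (n + 1) → SignType)) '' A).ncard = A.ncard :=
  Set.ncard_image_of_injective _ (Fin.cons_right_injective (α := fun _ => SignType) s)

theorem disj_img {n : ℕ} (s t : SignType) (hst : s ≠ t) (A B : Set (Fin n → SignType)) :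
    Disjoint ((fun σ => (Fin.cons s σ : Fin (n + 1) → SignType)) '' A)
      ((fun σ => (Fin.cons t σ : Fin (n + 1) → SignType)) '' B) := by
  rw [Set.disjoint_left]
  rintro _ ⟨σ, h, rfl⟩ h2
  exact hst ((mem_img t s σ B).1 h2).1

end StepAux

open StepAux in
/-- **MF-STEP**. -/
theorem step_spec : S_step := by
  intro n m a h
  refine ⟨ex a, good h, ?_, ?_⟩
  · show (CC (ex a) 0).ncard = 2 * (CC a 0).ncard
    have e : CC (ex a) 0 = ((fun σ => (Fin.cons 1 σ : Fin (n + 1) → SignType)) '' CC a 0) ∪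
        ((fun σ => (Fin.cons (-1) σ : Fin (n + 1) → SignType)) '' CC a 0) := by
      ext τ
      obtain ⟨s, σ, rfl⟩ : ∃ (s : SignType) (σ : Fin n → SignType), τ = Fin.cons s σ :=
        ⟨τ 0, fun i => τ i.succ, (Fin.cons_self_tail τ).symm⟩
      rw [Set.mem_union, mem_img, mem_img]
      rcases SignType.trichotomy s with rfl | rfl | rfl
      · rw [mem_ne a 0 (-1) (by decide)]
        simp
      · simp only [mem_eq0, false_iff]
        rintro (⟨h, -⟩ | ⟨h, -⟩)
        · exact absurd h (by decide)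
        · exact absurd h (by decide)
      · rw [mem_ne a 0 1 (by decide)]
        simp
    rw [e, Set.ncard_union_eq (disj_img 1 (-1) (by decide) _ _) (Set.toFinite _) (Set.toFinite _),
      ncard_img, ncard_img]
    ring
  · intro ρ
    show (CC (ex a) (ρ + 1)).ncard = 2 * (CC a (ρ + 1)).ncard + (CC a ρ).ncard
    have e : CC (ex a) (ρ + 1) =
        (((fun σ => (Fin.cons 1 σ : Fin (n + 1) → SignType)) '' CC a (ρ + 1)) ∪
        ((fun σ => (Fin.cons (-1) σ : Fin (n + 1) → SignType)) '' CC a (ρ + 1))) ∪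
        ((fun σ => (Fin.cons 0 σ : Fin (n + 1) → SignType)) '' CC a ρ) := by
      ext τ
      obtain ⟨s, σ, rfl⟩ : ∃ (s : SignType) (σ : Fin n → SignType), τ = Fin.cons s σ :=
        ⟨τ 0, fun i => τ i.succ, (Fin.cons_self_tail τ).symm⟩
      rw [Set.mem_union, Set.mem_union, mem_img, mem_img, mem_img]
      rcases SignType.trichotomy s with rfl | rfl | rfl
      · rw [mem_ne a _ (-1) (by decide)]
        simp
      · rw [mem_eq]
        simp
      · rw [mem_ne a _ 1 (by decide)]
        simp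
    have hd : Disjoint (((fun σ => (Fin.cons 1 σ : Fin (n + 1) → SignType)) '' CC a (ρ + 1)) ∪
        ((fun σ => (Fin.cons (-1) σ : Fin (n + 1) → SignType)) '' CC a (ρ + 1)))
        ((fun σ => (Fin.cons 0 σ : Fin (n + 1) → SignType)) '' CC a ρ) := by
      rw [Set.disjoint_union_left]
      exact ⟨disj_img 1 0 (by decide) _ _, disj_img (-1) 0 (by decide) _ _⟩
    rw [e, Set.ncard_union_eq hd (Set.toFinite _) (Set.toFinite _),
      Set.ncard_union_eq (disj_img 1 (-1) (by decide) _ _) (Set.toFinite _) (Set.toFinite _),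
      ncard_img, ncard_img, ncard_img]
    ring

end Pool.Agent.Y231.MF
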