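import Pool.Agent.Y231.MF.Stm

/-!
# Project MF: the tau inequality (by helper401)
-/

set_option autoImplicit false

namespace Pool.Agent.Y231.MF

open Finset Classical

section Tau

/-- a set on which `f` is injective can be enlarged, inside a given set, to a set of representatives
of the fibres -/
theorem tau_ext {α β : Type*} (f : α → β) (S1 : Finset α) (hinj : Set.InjOn f (S1 : Set α))
    (V : Finset α) : ∃ S2 : Finset α, S1 ⊆ S2 ∧ S2 ⊆ S1 ∪ V ∧ Set.InjOn f (S2 : Set α) ∧
      S2.image f = (S1 ∪ V).image f := by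
  induction V using Finset.induction_on with
  | empty => exact ⟨S1, Subset.refl _, by simp, hinj, by simp⟩
  | insert v V hv ih =>
    obtain ⟨S2, h1, h2, h3, h4⟩ := ih
    have hu : S1 ∪ insert v V = insert v (S1 ∪ V) := by
      ext x; simp only [mem_union, mem_insert]; tauto
    by_cases hf : f v ∈ S2.image f
    · refine ⟨S2, h1, ?_, h3, ?_⟩
      · rw [hu]; exact h2.trans (subset_insert _ _)
      · rw [hu, image_insert, h4]
        rw [h4] at hf
        exact (insert_eq_self.2 hf).symm
    · refine ⟨insert v S2, h1.trans (subset_insert _ _), ?_, ?_, ?_⟩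
      · rw [hu]; exact insert_subset_insert _ h2
      · rw [coe_insert, Set.injOn_insert]
        · refine ⟨h3, ?_⟩
          intro hc
          apply hf
          obtain ⟨w, hw1, hw2⟩ := hc
          exact mem_image.2 ⟨w, hw1, hw2⟩
        · intro hv2
          exact hf (mem_image_of_mem f hv2)
      · rw [hu, image_insert, image_insert, h4]

variable {m : ℕ}

theorem tau_rank {X : Submodule ℝ (Fin m → ℝ)} {v : Fin m → ℝ} (hv : v ∉ X) :
    Module.finrank ℝ (X ⊔ Submodule.span ℝ {v} : Submodule ℝ (Fin m → ℝ)) = Module.finrank ℝ X + 1 := by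
  have hv0 : v ≠ 0 := by
    rintro rfl; exact hv X.zero_mem
  have hd : X ⊓ Submodule.span ℝ {v} = ⊥ := by
    rw [Submodule.eq_bot_iff]
    intro w hw
    obtain ⟨hw1, hw2⟩ := Submodule.mem_inf.1 hw
    obtain ⟨c, rfl⟩ := Submodule.mem_span_singleton.1 hw2
    by_cases hc : c = 0
    · rw [hc, zero_smul]
    · exact absurd ((Submodule.smul_mem_iff X hc).1 hw1) hv
  have h := Submodule.finrank_sup_add_finrank_inf_eq X (Submodule.span ℝ {v})
  rw [hd, finrank_bot, finrank_span_singleton hv0] at h
  omega

theorem tau_eq {X : Submodule ℝ (Fin m → ℝ)} {v w : Fin m → ℝ} (hv : v ∉ X)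
    (hw : v ∈ X ⊔ Submodule.span ℝ {w}) :
    (X ⊔ Submodule.span ℝ {v} : Submodule ℝ (Fin m → ℝ)) = X ⊔ Submodule.span ℝ {w} := by
  have hwX : w ∉ X := by
    intro h
    have : Submodule.span ℝ {w} ≤ X := by
      rw [Submodule.span_singleton_le_iff_mem]; exact h
    rw [sup_eq_left.2 this] at hw
    exact hv hw
  apply Submodule.eq_of_le_of_finrank_le
  · apply sup_le le_sup_left
    rw [Submodule.span_singleton_le_iff_mem]; exact hw
  · rw [tau_rank hv, tau_rank hwX]

theorem tau_spec (ha : S_add) (_hm : S_mon) (hsub : S_sub) (hp : S_pow) (hl : S_low)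
    (hu : S_upp) : S_tau := by
  intro ι _ m a X Y hX hY hsp hXY hr
  -- the index `y`
  have hXneY : ¬ Y ≤ X := by
    intro h
    have := Submodule.finrank_mono h
    omega
  obtain ⟨y, hyY, hyX⟩ : ∃ y, a y ∈ Y ∧ a y ∉ X := by
    by_contra hcon
    push Not at hcon
    apply hXneY
    rw [← hY]
    unfold spn
    rw [Submodule.span_le]
    rintro _ ⟨i, hi, rfl⟩
    exact hcon i hi
  have hYeq : X ⊔ Submodule.span ℝ {a y} = Y := by
    apply Submodule.eq_of_le_of_finrank_le
    · apply sup_le hXY
      rw [Submodule.span_singleton_le_iff_mem]; exact hyY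
    · rw [tau_rank hyX]; omega
  -- the set `S0`
  obtain ⟨S0, -, hS0u, hS0i, hS0im⟩ := tau_ext (fun i => Y ⊔ Submodule.span ℝ {a i}) ∅ (by simp)
    (univ.filter (fun i => a i ∉ Y))
  rw [empty_union] at hS0u hS0im
  have hS0Y : ∀ i ∈ S0, a i ∉ Y := fun i hi => (mem_filter.1 (hS0u hi)).2
  have hS0X : ∀ i ∈ S0, a i ∉ X := fun i hi h => hS0Y i hi (hXY h)
  have hS0c : S0.card = (cov a Y).card := by
    have e : cov a Y = S0.image (fun i => Y ⊔ Submodule.span ℝ {a i}) := hS0im.symm
    rw [e, card_image_of_injOn hS0i]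
  have hS0ex : ∀ i, a i ∉ Y → ∃ j ∈ S0, Y ⊔ Submodule.span ℝ {a i} = Y ⊔ Submodule.span ℝ {a j} := by
    intro i hi
    have h1 := (Finset.ext_iff.1 hS0im (Y ⊔ Submodule.span ℝ {a i})).2
      (mem_image.2 ⟨i, mem_filter.2 ⟨mem_univ _, hi⟩, rfl⟩)
    obtain ⟨j, hj, hj2⟩ := mem_image.1 h1
    exact ⟨j, hj, hj2.symm⟩
  have hyS0 : y ∉ S0 := fun h => hS0Y y h hyY
  -- the set `S1`
  have hR1 : 2 * tt a Y ≤ (Reg a X (insert y S0)).card := by
    have h1 := ha ι m a X S0 y hyS0 hyX
    rw [hYeq] at h1
    have h2 : (Reg a Y S0).card ≤ (Reg a X S0).card := card_le_card (hsub ι m a X Y S0 hXY)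
    have h3 := hu ι m a Y S0 hY hS0Y hS0ex
    omega
  have hS1X : ∀ i ∈ insert y S0, a i ∉ X := by
    intro i hi
    rcases mem_insert.1 hi with rfl | hi
    · exact hyX
    · exact hS0X i hi
  have hS1inj : Set.InjOn (fun i => X ⊔ Submodule.span ℝ {a i}) ((insert y S0 : Finset ι) : Set ι) := by
    rw [coe_insert, Set.injOn_insert (by simpa using hyS0)]
    constructor
    · intro i hi j hj hij
      apply hS0i hi hj
      simp only at hij ⊢
      have e : ∀ k, Y ⊔ Submodule.span ℝ {a k} = Y ⊔ (X ⊔ Submodule.span ℝ {a k}) := by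
        intro k
        rw [← sup_assoc, sup_eq_left.2 hXY]
      rw [e i, e j, hij]
    · rintro ⟨i, hi, hi2⟩
      simp only at hi2
      apply hS0Y i hi
      rw [hYeq] at hi2
      rw [← hi2]
      exact Submodule.mem_sup_right (Submodule.mem_span_singleton_self _)
  have hS1top : X ⊔ spn a (insert y S0 : Finset ι) = ⊤ := by
    have hmem : ∀ i ∈ insert y S0, Submodule.span ℝ {a i} ≤ X ⊔ spn a (insert y S0 : Finset ι) := by
      intro i hi
      rw [Submodule.span_singleton_le_iff_mem]
      apply Submodule.mem_sup_right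
      exact Submodule.subset_span ⟨i, mem_coe.2 hi, rfl⟩
    have hYle : Y ≤ X ⊔ spn a (insert y S0 : Finset ι) := by
      rw [← hYeq]
      exact sup_le le_sup_left (hmem y (mem_insert_self _ _))
    rw [eq_top_iff, ← hsp]
    conv_lhs => unfold spn
    rw [Submodule.span_le]
    rintro _ ⟨i, -, rfl⟩
    by_cases hi : a i ∈ Y
    · exact hYle hi
    · obtain ⟨j, hj, hj2⟩ := hS0ex i hi
      have h1 : a i ∈ Y ⊔ Submodule.span ℝ {a j} := by
        rw [← hj2]; exact Submodule.mem_sup_right (Submodule.mem_span_singleton_self _)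
      exact sup_le hYle (hmem j (mem_insert_of_mem hj)) h1
  -- the set `S2`
  obtain ⟨S2, hS12, hS2u, hS2i, hS2im⟩ := tau_ext (fun i => X ⊔ Submodule.span ℝ {a i})
    (insert y S0) hS1inj (univ.filter (fun i => a i ∉ X))
  have hU : insert y S0 ∪ univ.filter (fun i => a i ∉ X) = univ.filter (fun i => a i ∉ X) := by
    rw [union_eq_right]
    intro i hi
    exact mem_filter.2 ⟨mem_univ _, hS1X i hi⟩
  rw [hU] at hS2u hS2im
  have hS2X : ∀ i ∈ S2, a i ∉ X := fun i hi => (mem_filter.1 (hS2u hi)).2
  have hS2c : S2.card = (cov a X).card := by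
    have e : cov a X = S2.image (fun i => X ⊔ Submodule.span ℝ {a i}) := hS2im.symm
    rw [e, card_image_of_injOn hS2i]
  -- growth
  have key : ∀ T : Finset ι, T ⊆ S2 \ insert y S0 →
      (Reg a X (insert y S0)).card + 2 ^ (m - Module.finrank ℝ Y) * T.card ≤
        (Reg a X (insert y S0 ∪ T)).card := by
    intro T
    induction T using Finset.induction_on with
    | empty => intro _; simp
    | insert i T hiT ih =>
      intro hT
      have hT' : T ⊆ S2 \ insert y S0 := (subset_insert i T).trans hT
      have hi := hT (mem_insert_self i T)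
      obtain ⟨hi2, hi1⟩ := mem_sdiff.1 hi
      have ih' := ih hT'
      have hin : i ∉ insert y S0 ∪ T := by
        rw [mem_union]; rintro (h | h)
        · exact hi1 h
        · exact hiT h
      have hiX : a i ∉ X := hS2X i hi2
      have h1 := ha ι m a X (insert y S0 ∪ T) i hin hiX
      have h2 := hp ι m a (X ⊔ Submodule.span ℝ {a i}) (insert y S0 ∪ T) ?_ ?_
      · rw [tau_rank hiX, ← hr] at h2
        rw [union_insert, card_insert_of_notMem hiT, mul_add, mul_one]
        omega
      · rw [eq_top_iff, ← hS1top]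
        apply sup_le
        · exact le_sup_left.trans le_sup_left
        · apply le_trans _ le_sup_right
          unfold spn
          apply Submodule.span_mono
          apply Set.image_mono
          rw [coe_union]
          exact Set.subset_union_left
      · intro j hj hjX'
        have hj2 : j ∈ S2 := by
          rcases mem_union.1 hj with h | h
          · exact hS12 h
          · exact (mem_sdiff.1 (hT' h)).1
        have e := tau_eq (hS2X j hj2) hjX'
        have : j = i := hS2i hj2 hi2 e
        exact hin (this ▸ hj)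
  have h1 := key (S2 \ insert y S0) (Subset.refl _)
  rw [union_sdiff_of_subset hS12] at h1
  have h2 := hl ι m a X S2 hX hS2X
  have h3 : (S2 \ insert y S0).card + (insert y S0).card = S2.card := card_sdiff_add_card_eq_card hS12
  rw [card_insert_of_notMem hyS0, hS0c, hS2c] at h3
  have h4 : 2 * tt a Y + 2 ^ (m - Module.finrank ℝ Y) * (S2 \ insert y S0).card ≤ tt a X := by
    omega
  have h5 : (((S2 \ insert y S0).card : ℕ) : ℚ) = ((cov a X).card : ℚ) - 1 - (cov a Y).card := by
    have : (((S2 \ insert y S0).card : ℕ) : ℚ) + ((cov a Y).card + 1) = ((cov a X).card : ℚ) := by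
      exact_mod_cast h3
    linarith
  rw [← h5]
  exact_mod_cast h4

end Tau

end Pool.Agent.Y231.MF

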